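import Pool.Agent.Lib.MP_340d6a_an.Defs

section

/-!
# The explicit forms
-/

set_option autoImplicit false

namespace Pool.Agent.Lib.MP_340d6a_an

open scoped ComplexConjugate

variable {m : ℕ}

/-- The solution. -/
noncomputable def usol (ρ s : ℝ) (z : Cn (m + 3)) : ℂ :=
  z 0 ^ 3 * conj (z 1) * Complex.exp ((z 2 - 1) / s) * (z 1 * conj (z 1) + ρ ^ 2)⁻¹

/-- The coefficient of `dz̄₂`. -/
noncomputable def fcoef (ρ s : ℝ) (z : Cn (m + 3)) : ℂ :=
  ρ ^ 2 * z 0 ^ 3 * Complex.exp ((z 2 - 1) / s) * ((z 1 * conj (z 1) + ρ ^ 2)⁻¹) ^ 2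

/-- The form. -/
noncomputable def fform (ρ s : ℝ) (z : Cn (m + 3)) : Cn (m + 3) :=
  EuclideanSpace.single 1 (fcoef ρ s z)

/-- The directions of the four lines. -/
noncomputable def dir (k : ℕ) : Cn (m + 3) :=
  EuclideanSpace.single 0 (Complex.I ^ k) + EuclideanSpace.single 1 1

end Pool.Agent.Lib.MP_340d6a_an
end

section

set_option autoImplicit false

namespace Pool.Agent.Lib.MP_340d6a_an

open MeasureTheory Set Metric
open scoped ContDiff ENNReal ComplexConjugate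

variable {m n : ℕ}

private theorem b1_coord (k : Fin (m + 3)) : ContDiff ℝ ∞ (fun z : Cn (m + 3) => z k) :=
  ((EuclideanSpace.proj k : Cn (m + 3) →L[ℂ] ℂ).restrictScalars ℝ).contDiff

private theorem b1_conj (k : Fin (m + 3)) : ContDiff ℝ ∞ (fun z : Cn (m + 3) => conj (z k)) :=
  (Complex.conjCLE.contDiff (n := ∞)).comp (b1_coord k)

private theorem b1_den (ρ : ℝ) (hρ : 0 < ρ) (z : ℂ) : z * conj z + (ρ : ℂ) ^ 2 ≠ 0 := by
  intro h
  have h1 := congrArg Complex.re h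
  rw [Complex.mul_conj] at h1
  have h2 : ((Complex.normSq z : ℂ) + (ρ : ℂ) ^ 2).re = Complex.normSq z + ρ ^ 2 := by
    rw [Complex.add_re, Complex.ofReal_re]
    norm_cast
  rw [h2, Complex.zero_re] at h1
  have h3 := Complex.normSq_nonneg z
  have h4 : 0 < ρ ^ 2 := by positivity
  linarith

private theorem b1_inv (ρ : ℝ) (hρ : 0 < ρ) :
    ContDiff ℝ ∞ (fun z : Cn (m + 3) => (z 1 * conj (z 1) + (ρ : ℂ) ^ 2)⁻¹) :=
  (((b1_coord 1).mul (b1_conj 1)).add contDiff_const).inv (fun z => b1_den ρ hρ (z 1))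

private theorem b1_exp (s : ℝ) :
    ContDiff ℝ ∞ (fun z : Cn (m + 3) => Complex.exp ((z 2 - 1) / (s : ℂ))) :=
  (((b1_coord 2).sub contDiff_const).div_const _).cexp

/-- The denominator `z_1 conj z_1 + ρ² = |z_1|² + ρ²` is never zero (as a complex number: its real
part is `≥ ρ² > 0`). Coordinates are continuous linear, `conj` is `Complex.conjCLE`. -/
theorem contDiff_usol (ρ s : ℝ) (hρ : 0 < ρ) : ContDiff ℝ ∞ (usol (m := m) ρ s) :=
  ((((b1_coord 0).pow 3).mul (b1_conj 1)).mul (b1_exp s)).mul (b1_inv ρ hρ)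

theorem contDiff_fcoef (ρ s : ℝ) (hρ : 0 < ρ) : ContDiff ℝ ∞ (fcoef (m := m) ρ s) :=
  ((contDiff_const.mul ((b1_coord 0).pow 3)).mul (b1_exp s)).mul ((b1_inv ρ hρ).pow 2)

theorem contDiff_fform (ρ s : ℝ) (hρ : 0 < ρ) : ContDiff ℝ ∞ (fform (m := m) ρ s) := by
  have : (fform (m := m) ρ s) = fun z => fcoef ρ s z • (EuclideanSpace.single 1 1 : Cn (m + 3)) := by
    funext z
    ext i
    by_cases hi : i = 1
    · subst hi
      simp [fform]
    · simp [fform, hi]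
  rw [this]
  exact (contDiff_fcoef ρ s hρ).smul contDiff_const

end Pool.Agent.Lib.MP_340d6a_an
end

section

set_option autoImplicit false

namespace Pool.Agent.Lib.MP_340d6a_an

open MeasureTheory Set Metric
open scoped ContDiff ENNReal ComplexConjugate

variable {m n : ℕ}

private theorem BX_dbar_mul (j : Fin n) {f g : Cn n → ℂ} {z : Cn n} (hf : DifferentiableAt ℝ f z)
    (hg : DifferentiableAt ℝ g z) :
    dbar j (fun z => f z * g z) z = f z * dbar j g z + g z * dbar j f z := by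
  unfold dbar
  rw [fderiv_fun_mul hf hg]
  simp only [add_apply, smul_apply, smul_eq_mul]
  ring

private theorem BX_dbar_const (j : Fin n) (c : ℂ) (z : Cn n) : dbar j (fun _ => c) z = 0 := by
  unfold dbar
  simp

private theorem BX_dbar_add (j : Fin n) {f g : Cn n → ℂ} {z : Cn n} (hf : DifferentiableAt ℝ f z)
    (hg : DifferentiableAt ℝ g z) :
    dbar j (fun z => f z + g z) z = dbar j f z + dbar j g z := by
  unfold dbar
  rw [fderiv_fun_add hf hg]
  simp only [add_apply]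
  ring

private theorem BX_dbar_holo (j : Fin n) {f : Cn n → ℂ} {z : Cn n}
    (hf : DifferentiableAt ℂ f z) : dbar j f z = 0 := by
  have h1 : fderiv ℝ f z = (fderiv ℂ f z).restrictScalars ℝ :=
    (hf.hasFDerivAt.restrictScalars ℝ).fderiv
  unfold dbar
  rw [h1]
  have h2 : (EuclideanSpace.single j Complex.I : Cn n) =
      Complex.I • (EuclideanSpace.single j 1 : Cn n) := by
    ext i
    by_cases hi : i = j
    · subst hi; simp
    · simp [hi]
  rw [h2]
  simp only [ContinuousLinearMap.coe_restrictScalars', map_smul, smul_eq_mul]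
  rw [← mul_assoc, Complex.I_mul_I]
  ring

private theorem BX_coord (k : Fin n) : Differentiable ℂ (fun z : Cn n => z k) :=
  (EuclideanSpace.proj k : Cn n →L[ℂ] ℂ).differentiable

private theorem BX_coordR (k : Fin n) : Differentiable ℝ (fun z : Cn n => z k) :=
  ((EuclideanSpace.proj k : Cn n →L[ℂ] ℂ).restrictScalars ℝ).differentiable

private theorem BX_conjR (k : Fin n) : Differentiable ℝ (fun z : Cn n => conj (z k)) :=
  (Complex.conjCLE.differentiable).comp (BX_coordR k)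

private theorem BX_dbar_conj (j k : Fin n) (z : Cn n) :
    dbar j (fun z : Cn n => conj (z k)) z = if j = k then 1 else 0 := by
  have h1 : fderiv ℝ (fun z : Cn n => conj (z k)) z =
      (Complex.conjCLE : ℂ →L[ℝ] ℂ).comp
        ((EuclideanSpace.proj k : Cn n →L[ℂ] ℂ).restrictScalars ℝ) := by
    refine HasFDerivAt.fderiv ?_
    exact ((Complex.conjCLE : ℂ →L[ℝ] ℂ).hasFDerivAt (x := z k)).comp z
      (((EuclideanSpace.proj k : Cn n →L[ℂ] ℂ).restrictScalars ℝ).hasFDerivAt)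
  unfold dbar
  rw [h1]
  by_cases hjk : j = k
  · subst hjk
    simp
  · have hkj : k ≠ j := fun h => hjk h.symm
    simp [hjk, hkj]

private theorem BX_den (ρ : ℝ) (hρ : 0 < ρ) (z : ℂ) : z * conj z + (ρ : ℂ) ^ 2 ≠ 0 := by
  intro h
  have h1 := congrArg Complex.re h
  rw [Complex.mul_conj] at h1
  have h2 : ((Complex.normSq z : ℂ) + (ρ : ℂ) ^ 2).re = Complex.normSq z + ρ ^ 2 := by
    rw [Complex.add_re, Complex.ofReal_re]
    norm_cast
  rw [h2, Complex.zero_re] at h1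
  have h3 := Complex.normSq_nonneg z
  have h4 : 0 < ρ ^ 2 := by positivity
  linarith

private theorem BX_denR (ρ : ℝ) :
    Differentiable ℝ (fun z : Cn (m + 3) => z 1 * conj (z 1) + (ρ : ℂ) ^ 2) :=
  ((BX_coordR 1).mul (BX_conjR 1)).add_const _

private theorem BX_invR (ρ : ℝ) (hρ : 0 < ρ) :
    Differentiable ℝ (fun z : Cn (m + 3) => (z 1 * conj (z 1) + (ρ : ℂ) ^ 2)⁻¹) :=
  fun z => (BX_denR ρ z).inv (BX_den ρ hρ (z 1))

private theorem BX_dbar_den (ρ : ℝ) (j : Fin (m + 3)) (z : Cn (m + 3)) :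
    dbar j (fun z : Cn (m + 3) => z 1 * conj (z 1) + (ρ : ℂ) ^ 2) z =
      if j = 1 then z 1 else 0 := by
  rw [BX_dbar_add j (f := fun z : Cn (m + 3) => z 1 * conj (z 1)) (g := fun _ => (ρ : ℂ) ^ 2)
    (((BX_coordR 1).mul (BX_conjR 1)) z) (differentiableAt_const _), BX_dbar_const, add_zero,
    BX_dbar_mul j (BX_coordR 1 z) (BX_conjR 1 z), BX_dbar_conj, BX_dbar_holo j (BX_coord 1 z)]
  by_cases hj : j = 1
  · simp [hj]
  · simp [hj]

private theorem BX_dbar_inv (ρ : ℝ) (hρ : 0 < ρ) (j : Fin (m + 3)) (z : Cn (m + 3)) :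
    dbar j (fun z : Cn (m + 3) => (z 1 * conj (z 1) + (ρ : ℂ) ^ 2)⁻¹) z =
      -((z 1 * conj (z 1) + (ρ : ℂ) ^ 2)⁻¹) ^ 2 * (if j = 1 then z 1 else 0) := by
  have h1 : (fun z : Cn (m + 3) => (z 1 * conj (z 1) + (ρ : ℂ) ^ 2) *
      (z 1 * conj (z 1) + (ρ : ℂ) ^ 2)⁻¹) = fun _ => 1 := by
    funext z
    exact mul_inv_cancel₀ (BX_den ρ hρ (z 1))
  have h2 := BX_dbar_mul j (BX_denR (m := m) ρ z) (BX_invR (m := m) ρ hρ z)
  rw [h1, BX_dbar_const, BX_dbar_den] at h2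
  have h3 := BX_den ρ hρ (z 1)
  obtain ⟨E, hE⟩ : ∃ E, E = (z 1 * conj (z 1) + (ρ : ℂ) ^ 2)⁻¹ := ⟨_, rfl⟩
  obtain ⟨D, hD⟩ : ∃ D, D = (z 1 * conj (z 1) + (ρ : ℂ) ^ 2) := ⟨_, rfl⟩
  rw [← hE] at h2 ⊢
  rw [← hD] at h2 h3 hE
  have h4 : E * D = 1 := by rw [hE]; exact inv_mul_cancel₀ h3
  obtain ⟨X, hX⟩ : ∃ X, X = dbar j (fun z : Cn (m + 3) => (z 1 * conj (z 1) + (ρ : ℂ) ^ 2)⁻¹) z :=
    ⟨_, rfl⟩
  rw [← hX] at h2 ⊢
  have h5 : E * (D * X + E * (if j = 1 then z 1 else 0)) = 0 := by rw [← h2, mul_zero]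
  have h6 : E * (D * X + E * (if j = 1 then z 1 else 0)) =
      (E * D) * X + E ^ 2 * (if j = 1 then z 1 else 0) := by ring
  rw [h6, h4, one_mul] at h5
  rw [neg_mul]
  exact eq_neg_of_add_eq_zero_left h5

private theorem BX_exp (s : ℝ) :
    Differentiable ℂ (fun z : Cn (m + 3) => Complex.exp ((z 2 - 1) / (s : ℂ))) := by
  have h : Differentiable ℂ (fun z : Cn (m + 3) => (z 2 - 1) * (s : ℂ)⁻¹) :=
    ((BX_coord 2).sub_const _).mul_const _
  simp only [div_eq_mul_inv]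
  exact h.cexp

/-- The rule `∂/∂z̄_j`: write `D = z_1 conj z_1 + ρ²`. `usol = A * conj z_1 * D⁻¹` with
`A = z_0³ e^{(z_2-1)/s}` holomorphic, so `∂/∂z̄_j usol = 0` for `j ≠ 1` and
`∂/∂z̄_1 usol = A (D⁻¹ - conj z_1 * z_1 * D⁻²) = A ρ² D⁻² = fcoef`. In Lean it is convenient to
prove first private lemmas: for real-differentiable `f, g`: `dbar j (f * g) z = f z * dbar j g z +
g z * dbar j f z`; `dbar j f z = 0` if `f` has a complex derivative (`HasFDerivAt ... restrictScalars`,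
`L (single j I) = I * L (single j 1)`); `dbar j (fun z => conj (z k)) z = if j = k then 1 else 0`;
`dbar j (fun z => (D z)⁻¹) z = - dbar j D z / (D z)²`. -/
theorem dbar_usol (ρ s : ℝ) (hρ : 0 < ρ) (j : Fin (m + 3)) (z : Cn (m + 3)) :
    dbar j (usol (m := m) ρ s) z = fform ρ s z j := by
  have hA : Differentiable ℂ (fun z : Cn (m + 3) => z 0 ^ 3) := (BX_coord 0).pow 3
  have hAR : Differentiable ℝ (fun z : Cn (m + 3) => z 0 ^ 3) := (BX_coordR 0).pow 3
  have hEx := BX_exp (m := m) s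
  have hExR : Differentiable ℝ (fun z : Cn (m + 3) => Complex.exp ((z 2 - 1) / (s : ℂ))) :=
    fun z => (hEx z).restrictScalars ℝ
  have e1 : usol (m := m) ρ s = fun z : Cn (m + 3) =>
      (z 0 ^ 3 * conj (z 1) * Complex.exp ((z 2 - 1) / (s : ℂ))) *
        (z 1 * conj (z 1) + (ρ : ℂ) ^ 2)⁻¹ := rfl
  have hF1 : Differentiable ℝ (fun z : Cn (m + 3) => z 0 ^ 3 * conj (z 1)) :=
    hAR.mul (BX_conjR 1)
  have hF2 : Differentiable ℝ (fun z : Cn (m + 3) =>
      z 0 ^ 3 * conj (z 1) * Complex.exp ((z 2 - 1) / (s : ℂ))) := hF1.mul hExR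
  rw [e1, BX_dbar_mul j (hF2 z) (BX_invR ρ hρ z), BX_dbar_inv ρ hρ,
    BX_dbar_mul j (hF1 z) (hExR z), BX_dbar_holo j (hEx z),
    BX_dbar_mul j (hAR z) (BX_conjR 1 z), BX_dbar_holo j (hA z), BX_dbar_conj]
  have h3 := BX_den ρ hρ (z 1)
  by_cases hj : j = 1
  · subst hj
    simp only [if_true, fform, fcoef, EuclideanSpace.single_apply]
    field_simp
    ring
  · simp [hj, fform]

end Pool.Agent.Lib.MP_340d6a_an
end

section

set_option autoImplicit false

namespace Pool.Agent.Lib.MP_340d6a_an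

open MeasureTheory Set Metric
open scoped ContDiff ENNReal ComplexConjugate

variable {m n : ℕ}

private theorem b4_num (y : ℝ) (hy : 0 ≤ y) : y ^ 3 ≤ 4 * (1 + 9 / 32 * y ^ 8) := by
  rcases le_total y 1 with h | h
  · have h1 : y ^ 3 ≤ 1 := pow_le_one₀ hy h
    have h2 : 0 ≤ y ^ 8 := by positivity
    linarith
  · have h1 : y ^ 3 ≤ y ^ 8 := pow_le_pow_right₀ h (by norm_num)
    have h2 : 0 ≤ y ^ 8 := by positivity
    linarith

private theorem b4_den (ρ : ℝ) (z : ℂ) :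
    ‖z * conj z + (ρ : ℂ) ^ 2‖ = ‖z‖ ^ 2 + ρ ^ 2 := by
  have : z * conj z + (ρ : ℂ) ^ 2 = ((‖z‖ ^ 2 + ρ ^ 2 : ℝ) : ℂ) := by
    rw [Complex.mul_conj, Complex.normSq_eq_norm_sq]
    push_cast
    rfl
  rw [this, Complex.norm_real, Real.norm_eq_abs, abs_of_nonneg (by positivity)]

/-- Let `a = |z_0|`, `b = |z_1|`. `|fcoef| = ρ² a³ e^{(Re z_2 - 1)/ρ^8} / (b² + ρ²)²`. In
`Omega m`: `|z_0^4 - z_1^4|² < 1 - |z_2|²` (the other terms of `psi` are nonnegative; `z 2` is the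
term `i = 0` of the sum) and `Re z_2 - 1 ≤ |z_2| - 1 ≤ -(1 - |z_2|²)/2 ≤ - |z_0^4 - z_1^4|²/2`.
Case 1: `a² ≤ 2 b²`: `a³ ≤ 2√2 b³ ≤ 3 b³`, the exponential is `≤ 1`, and
`(b²+ρ²)² ≥ (2 b ρ) b² = 2 b³ ρ`, so `|fcoef| ≤ 3ρ/2` (trivial if `b = 0`).
Case 2: `a² > 2 b²`: `|z_0^4 - z_1^4| ≥ a⁴ - b⁴ ≥ (3/4) a⁴`, so with `y = a/ρ` the exponential is
`≤ exp(-(9/32) y^8) ≤ 1 / (1 + (9/32) y^8)` (`Real.add_one_le_exp`), and
`|fcoef| ≤ ρ² a³ /ρ⁴ * exp(..) = ρ y³ exp(..) ≤ ρ (1 + y^8)/(1 + (9/32) y^8) ≤ (32/9) ρ ≤ 4 ρ`. -/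
theorem norm_fcoef_le (ρ : ℝ) (hρ : 0 < ρ) (z : Cn (m + 3)) (hz : z ∈ Omega m) :
    ‖fcoef ρ (ρ ^ 8) z‖ ≤ 4 * ρ := by
  obtain ⟨a, ha⟩ : ∃ a, a = ‖z 0‖ := ⟨_, rfl⟩
  obtain ⟨b, hb⟩ : ∃ b, b = ‖z 1‖ := ⟨_, rfl⟩
  have ha0 : 0 ≤ a := by rw [ha]; exact norm_nonneg _
  have hb0 : 0 ≤ b := by rw [hb]; exact norm_nonneg _
  obtain ⟨E, hE⟩ : ∃ E : ℝ, E = Real.exp (((z 2).re - 1) / ρ ^ 8) := ⟨_, rfl⟩
  have hE0 : 0 < E := by rw [hE]; exact Real.exp_pos _
  have hnorm : ‖fcoef ρ (ρ ^ 8) z‖ = ρ ^ 2 * a ^ 3 * E * ((b ^ 2 + ρ ^ 2)⁻¹) ^ 2 := by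
    unfold fcoef
    rw [norm_mul, norm_mul, norm_mul, norm_pow, norm_pow, norm_pow, norm_inv, b4_den,
      Complex.norm_exp, Complex.norm_real, Real.norm_eq_abs, abs_of_pos hρ, ← ha, ← hb, hE]
    have : ((z 2 - 1) / ((ρ ^ 8 : ℝ) : ℂ)).re = ((z 2).re - 1) / ρ ^ 8 := by
      rw [Complex.div_ofReal_re]
      simp
    rw [this]
  -- the estimate in the domain
  have hpsi : ‖z 0 ^ 4 - z 1 ^ 4‖ ^ 2 + ‖z 2‖ ^ 2 < 1 := by
    have h1 : psi z < 1 := hz
    unfold psi at h1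
    have h2 : ‖z 2‖ ^ 2 ≤ ∑ i : Fin (m + 1), ‖z i.succ.succ‖ ^ 2 := by
      have h3 := Finset.single_le_sum (f := fun i : Fin (m + 1) => ‖z i.succ.succ‖ ^ 2)
        (fun i _ => sq_nonneg _) (Finset.mem_univ (0 : Fin (m + 1)))
      exact h3
    have h4 : 0 ≤ (‖z 0‖ ^ 2 + ‖z 1‖ ^ 2) ^ 16 := by positivity
    linarith
  have hre : (z 2).re - 1 ≤ -(‖z 0 ^ 4 - z 1 ^ 4‖ ^ 2) / 2 := by
    have h1 : (z 2).re ≤ ‖z 2‖ := Complex.re_le_norm _
    have h2 : 0 ≤ ‖z 2‖ := norm_nonneg _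
    nlinarith [sq_nonneg (‖z 2‖ - 1)]
  have hρ8 : 0 < ρ ^ 8 := by positivity
  rw [hnorm]
  have hden : 0 < b ^ 2 + ρ ^ 2 := by positivity
  have hden2 : ((b ^ 2 + ρ ^ 2)⁻¹) ^ 2 = 1 / (b ^ 2 + ρ ^ 2) ^ 2 := by
    rw [inv_pow, one_div]
  rw [hden2, mul_one_div, div_le_iff₀ (by positivity)]
  rcases le_or_gt (a ^ 2) (2 * b ^ 2) with h | h
  · -- case 1
    have hE1 : E ≤ 1 := by
      rw [hE]
      refine Real.exp_le_one_iff.2 ?_
      refine div_nonpos_of_nonpos_of_nonneg ?_ hρ8.le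
      have := sq_nonneg ‖z 0 ^ 4 - z 1 ^ 4‖
      linarith
    have ha3 : a ^ 3 ≤ 3 * b ^ 3 := by
      have h1 : (a ^ 3) ^ 2 ≤ (3 * b ^ 3) ^ 2 := by
        have h2 : (a ^ 2) ^ 3 ≤ (2 * b ^ 2) ^ 3 := pow_le_pow_left₀ (sq_nonneg a) h 3
        calc (a ^ 3) ^ 2 = (a ^ 2) ^ 3 := by ring
          _ ≤ (2 * b ^ 2) ^ 3 := h2
          _ = 8 * b ^ 6 := by ring
          _ ≤ 9 * b ^ 6 := by nlinarith [pow_nonneg hb0 6]
          _ = _ := by ring
      exact le_of_sq_le_sq h1 (by positivity)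
    have h1 : ρ ^ 2 * a ^ 3 * E ≤ ρ ^ 2 * (3 * b ^ 3) * 1 :=
      mul_le_mul (mul_le_mul_of_nonneg_left ha3 (by positivity)) hE1 hE0.le (by positivity)
    refine h1.trans ?_
    have h2 : b ^ 3 * ρ * 2 ≤ (b ^ 2 + ρ ^ 2) ^ 2 := by
      have h3 : 2 * b * ρ ≤ b ^ 2 + ρ ^ 2 := by nlinarith [sq_nonneg (b - ρ)]
      have h4 : b ^ 2 ≤ b ^ 2 + ρ ^ 2 := by nlinarith [sq_nonneg ρ]
      calc b ^ 3 * ρ * 2 = (2 * b * ρ) * b ^ 2 := by ring
        _ ≤ (b ^ 2 + ρ ^ 2) * (b ^ 2 + ρ ^ 2) :=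
            mul_le_mul h3 h4 (by positivity) hden.le
        _ = _ := by ring
    have h5 : 4 * ρ * (b ^ 3 * ρ * 2) ≤ 4 * ρ * (b ^ 2 + ρ ^ 2) ^ 2 :=
      mul_le_mul_of_nonneg_left h2 (by positivity)
    refine le_trans ?_ h5
    have h6 : 0 ≤ ρ ^ 2 * b ^ 3 := by positivity
    nlinarith
  · -- case 2
    have hdiff : 3 / 4 * a ^ 4 ≤ ‖z 0 ^ 4 - z 1 ^ 4‖ := by
      have h1 : ‖z 0 ^ 4‖ - ‖z 1 ^ 4‖ ≤ ‖z 0 ^ 4 - z 1 ^ 4‖ := norm_sub_norm_le _ _
      rw [norm_pow, norm_pow, ← ha, ← hb] at h1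
      have h2 : b ^ 4 ≤ 1 / 4 * a ^ 4 := by
        have h3 : b ^ 2 ≤ a ^ 2 / 2 := by linarith
        have h4 := pow_le_pow_left₀ (sq_nonneg b) h3 2
        calc b ^ 4 = (b ^ 2) ^ 2 := by ring
          _ ≤ (a ^ 2 / 2) ^ 2 := h4
          _ = _ := by ring
      linarith
    obtain ⟨y, hy⟩ : ∃ y, y = a / ρ := ⟨_, rfl⟩
    have hy0 : 0 ≤ y := by rw [hy]; positivity
    have hay : a = y * ρ := by rw [hy]; field_simp
    have hexp : ((z 2).re - 1) / ρ ^ 8 ≤ -(9 / 32 * y ^ 8) := by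
      rw [div_le_iff₀ hρ8]
      have h2 : (3 / 4 * a ^ 4) ^ 2 ≤ ‖z 0 ^ 4 - z 1 ^ 4‖ ^ 2 :=
        pow_le_pow_left₀ (by positivity) hdiff 2
      have h3 : (3 / 4 * a ^ 4) ^ 2 = 9 / 16 * (y ^ 8 * ρ ^ 8) := by rw [hay]; ring
      rw [h3] at h2
      calc (z 2).re - 1 ≤ -(‖z 0 ^ 4 - z 1 ^ 4‖ ^ 2) / 2 := hre
        _ ≤ -(9 / 16 * (y ^ 8 * ρ ^ 8)) / 2 := by linarith
        _ = _ := by ring
    have hEy : E * (1 + 9 / 32 * y ^ 8) ≤ 1 := by
      have h2 : E ≤ Real.exp (-(9 / 32 * y ^ 8)) := by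
        rw [hE]; exact Real.exp_le_exp.2 hexp
      have h3 : 1 + 9 / 32 * y ^ 8 ≤ Real.exp (9 / 32 * y ^ 8) := by
        have := Real.add_one_le_exp (9 / 32 * y ^ 8)
        linarith
      calc E * (1 + 9 / 32 * y ^ 8) ≤
          Real.exp (-(9 / 32 * y ^ 8)) * Real.exp (9 / 32 * y ^ 8) :=
            mul_le_mul h2 h3 (by positivity) (Real.exp_pos _).le
        _ = 1 := by rw [← Real.exp_add]; simp
    have h7 : y ^ 3 * E ≤ 4 := by
      calc y ^ 3 * E ≤ 4 * (1 + 9 / 32 * y ^ 8) * E :=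
            mul_le_mul_of_nonneg_right (b4_num y hy0) hE0.le
        _ = 4 * (E * (1 + 9 / 32 * y ^ 8)) := by ring
        _ ≤ 4 * 1 := mul_le_mul_of_nonneg_left hEy (by norm_num)
        _ = 4 := by ring
    have h8 : (ρ ^ 2) ^ 2 ≤ (b ^ 2 + ρ ^ 2) ^ 2 :=
      pow_le_pow_left₀ (by positivity) (by nlinarith [sq_nonneg b]) 2
    calc ρ ^ 2 * a ^ 3 * E = ρ * (y ^ 3 * E) * (ρ ^ 2) ^ 2 := by rw [hay]; ring
      _ ≤ ρ * 4 * (b ^ 2 + ρ ^ 2) ^ 2 :=
          mul_le_mul (mul_le_mul_of_nonneg_left h7 hρ.le) h8 (by positivity) (by positivity)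
      _ = _ := by ring

end Pool.Agent.Lib.MP_340d6a_an
end

section

set_option autoImplicit false

namespace Pool.Agent.Lib.MP_340d6a_an

open MeasureTheory Set Metric
open scoped ContDiff ENNReal ComplexConjugate

variable {m n : ℕ}

/-- Integration by parts. `φ` is supported in `Ω`, so the integrals over `Ω` are integrals over the
whole space (`setIntegral_eq_integral_of_forall_compl_eq_zero`; `dbar j φ` vanishes outside `tsupport φ`).
On the whole space: `∫ g * fderiv φ v = - ∫ fderiv g v * φ` for `v = single j 1` and `v = single j I`: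
Mathlib `integral_mul_fderiv_eq_neg_fderiv_mul_of_integrable` (file
Mathlib/Analysis/Calculus/LineDeriv/IntegrationByParts.lean); the integrability hypotheses hold since the
functions are continuous with compact support (`Continuous.integrable_of_hasCompactSupport`). -/
theorem integral_mul_dbar (Ω : Set (Cn n)) (g φ : Cn n → ℂ) (hg : ContDiff ℝ 1 g)
    (hφ : IsTest Ω φ) (j : Fin n) :
    ∫ z in Ω, g z * dbar j φ z = - ∫ z in Ω, dbar j g z * φ z := by
  obtain ⟨hφs, hφc, hφΩ⟩ := hφ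
  have h1 : ContDiff ℝ 1 φ := hφs.of_le (by exact_mod_cast le_top)
  have hout : ∀ z, z ∉ Ω → φ z = 0 := fun z hz => image_eq_zero_of_notMem_tsupport fun h => hz (hφΩ h)
  have hout' : ∀ z, z ∉ Ω → fderiv ℝ φ z = 0 := fun z hz =>
    fderiv_of_notMem_tsupport (𝕜 := ℝ) fun h => hz (hφΩ h)
  rw [setIntegral_eq_integral_of_forall_compl_eq_zero (fun z hz => by
      unfold dbar
      rw [hout' z hz]
      simp),
    setIntegral_eq_integral_of_forall_compl_eq_zero (fun z hz => by rw [hout z hz, mul_zero])]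
  have hcφ : Continuous (fderiv ℝ φ) := h1.continuous_fderiv one_ne_zero
  have hcg : Continuous (fderiv ℝ g) := hg.continuous_fderiv one_ne_zero
  have hi1 : ∀ v : Cn n, Integrable fun z => fderiv ℝ g z v * φ z := fun v =>
    ((hcg.clm_apply continuous_const).mul h1.continuous).integrable_of_hasCompactSupport
      hφc.mul_left
  have hi2 : ∀ v : Cn n, Integrable fun z => g z * fderiv ℝ φ z v := fun v =>
    (hg.continuous.mul (hcφ.clm_apply continuous_const)).integrable_of_hasCompactSupport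
      (hφc.fderiv_apply ℝ v).mul_left
  have hi3 : Integrable fun z => g z * φ z :=
    (hg.continuous.mul h1.continuous).integrable_of_hasCompactSupport hφc.mul_left
  have key : ∀ v : Cn n, ∫ z, g z * fderiv ℝ φ z v = - ∫ z, fderiv ℝ g z v * φ z := fun v =>
    integral_mul_fderiv_eq_neg_fderiv_mul_of_integrable (hi1 v) (hi2 v) hi3
      (fun z _ => hg.differentiable (by norm_num) z) (fun z _ => h1.differentiable (by norm_num) z)
  have e1 : ∀ z, g z * dbar j φ z = (g z * fderiv ℝ φ z (EuclideanSpace.single j 1) +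
      Complex.I * (g z * fderiv ℝ φ z (EuclideanSpace.single j Complex.I))) / 2 := fun z => by
    unfold dbar; ring
  have e2 : ∀ z, dbar j g z * φ z = (fderiv ℝ g z (EuclideanSpace.single j 1) * φ z +
      Complex.I * (fderiv ℝ g z (EuclideanSpace.single j Complex.I) * φ z)) / 2 := fun z => by
    unfold dbar; ring
  simp_rw [e1, e2]
  rw [integral_div, integral_div, integral_add (hi2 _) ((hi2 _).const_mul _),
    integral_add (hi1 _) ((hi1 _).const_mul _), integral_const_mul, integral_const_mul, key, key]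
  ring

end Pool.Agent.Lib.MP_340d6a_an
end

section

set_option autoImplicit false

namespace Pool.Agent.Lib.MP_340d6a_an

open MeasureTheory Set Metric
open scoped ContDiff ENNReal ComplexConjugate

variable {m n : ℕ}

/-- immediate from the hypotheses. -/
theorem dbarEq_usol (ρ s : ℝ)
    (hu : ContDiff ℝ ∞ (usol (m := m) ρ s))
    (hd : ∀ (j : Fin (m + 3)) (z : Cn (m + 3)), dbar j (usol (m := m) ρ s) z = fform ρ s z j)
    (hI : ∀ (g φ : Cn (m + 3) → ℂ), ContDiff ℝ 1 g → IsTest (Omega m) φ → ∀ j,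
      ∫ z in Omega m, g z * dbar j φ z = - ∫ z in Omega m, dbar j g z * φ z) :
    DbarEq (Omega m) (usol ρ s) (fform ρ s) := by
  intro φ hφ j
  rw [hI (usol ρ s) φ (hu.of_le (by norm_num)) hφ j]
  simp only [hd]

private lemma fform_apply (ρ s : ℝ) (z : Cn (m + 3)) (j : Fin (m + 3)) :
    fform ρ s z j = if j = 1 then fcoef ρ s z else 0 := by
  rw [fform]
  simp

/-- Only the coefficient with index `1` is nonzero (`fform ρ s z j = if j = 1 then fcoef else 0`).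
If `j = k` or both are `≠ 1` it is trivial; if `j = 1 ≠ k`: `∫ fcoef * dbar k φ = - ∫ dbar k fcoef * φ
= 0`, and the other side is `0`. -/
theorem dbarClosed_fform (ρ s : ℝ)
    (hf : ContDiff ℝ ∞ (fcoef (m := m) ρ s))
    (hd : ∀ (k : Fin (m + 3)) (z : Cn (m + 3)), k ≠ 1 → dbar k (fcoef (m := m) ρ s) z = 0)
    (hI : ∀ (g φ : Cn (m + 3) → ℂ), ContDiff ℝ 1 g → IsTest (Omega m) φ → ∀ j,
      ∫ z in Omega m, g z * dbar j φ z = - ∫ z in Omega m, dbar j g z * φ z) :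
    DbarClosed (Omega m) (fform ρ s) := by
  intro φ hφ j k
  have key : ∀ k : Fin (m + 3), k ≠ 1 →
      ∫ z in Omega m, fcoef ρ s z * dbar k φ z = 0 := by
    intro k hk
    rw [hI (fcoef ρ s) φ (hf.of_le (by norm_num)) hφ k]
    simp only [hd k _ hk, zero_mul, integral_zero, neg_zero]
  simp only [fform_apply]
  by_cases hj : j = 1 <;> by_cases hk : k = 1
  · rw [hj, hk]
  · simp only [hj, hk, if_true, if_false, zero_mul, integral_zero]
    exact key k hk
  · simp only [hj, hk, if_true, if_false, zero_mul, integral_zero]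
    exact (key j hj).symm
  · simp only [hj, hk, if_false, zero_mul, integral_zero]

end Pool.Agent.Lib.MP_340d6a_an
end

section

set_option autoImplicit false

namespace Pool.Agent.Lib.MP_340d6a_an

open MeasureTheory Set Metric
open scoped ContDiff ENNReal ComplexConjugate

variable {m n : ℕ}

/-- The convolution `x ↦ ∫ H t * g (x - t)` is the Mathlib convolution `H ⋆[L, volume] g` with
`L = ContinuousLinearMap.mul ℝ ℂ`; `HasCompactSupport.contDiff_convolution_right`. -/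
theorem contDiff_conv (H : Cn n → ℂ) (hH : Integrable H)
    (g : Cn n → ℂ) (hg : ContDiff ℝ ∞ g) (hgc : HasCompactSupport g) :
    ContDiff ℝ ∞ (fun x => ∫ t, H t * g (x - t)) :=
  hgc.contDiff_convolution_right (ContinuousLinearMap.mul ℝ ℂ) hH.locallyIntegrable hg

/-- `HasCompactSupport.hasFDerivAt_convolution_right` (with `L = ContinuousLinearMap.mul ℝ ℂ`) and
evaluation of the integral of continuous linear maps at `v` (`ContinuousLinearMap.integral_apply`,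
integrable because `H` is integrable and `fderiv ℝ g` is continuous with compact support, so bounded). -/
theorem fderiv_conv (H : Cn n → ℂ) (hH : Integrable H)
    (g : Cn n → ℂ) (hg : ContDiff ℝ ∞ g) (hgc : HasCompactSupport g) (x v : Cn n) :
    fderiv ℝ (fun x => ∫ t, H t * g (x - t)) x v = ∫ t, H t * fderiv ℝ g (x - t) v := by
  have h1 : ContDiff ℝ 1 g := hg.of_le (by exact_mod_cast le_top)
  have h := hgc.hasFDerivAt_convolution_right (ContinuousLinearMap.mul ℝ ℂ)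
    (μ := volume) hH.locallyIntegrable h1 x
  have h2 : fderiv ℝ (fun x => ∫ t, H t * g (x - t)) x =
      ∫ t, ((ContinuousLinearMap.mul ℝ ℂ).precompR (Cn n)) (H t) (fderiv ℝ g (x - t)) := h.fderiv
  have h3 : Integrable fun t => ((ContinuousLinearMap.mul ℝ ℂ).precompR (Cn n)) (H t)
      (fderiv ℝ g (x - t)) :=
    (hgc.fderiv ℝ).convolutionExists_right ((ContinuousLinearMap.mul ℝ ℂ).precompR (Cn n))
      hH.locallyIntegrable (h1.continuous_fderiv one_ne_zero) x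
  rw [h2, ContinuousLinearMap.integral_apply h3]
  rfl

end Pool.Agent.Lib.MP_340d6a_an
end

section

set_option autoImplicit false

namespace Pool.Agent.Lib.MP_340d6a_an

open MeasureTheory Set Metric
open scoped ContDiff ENNReal ComplexConjugate

variable {m n : ℕ}

/-- By `hf` (the formula for the derivative of the convolution in a direction)
`dbar j (H * g) x = ∫ H t * (dbar j g) (x - t)` (linearity of the integral; integrable since `H` is
integrable and `fderiv ℝ g · v` is bounded continuous). The function `φ t = g (x - t)` is a test function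
on `Ω`: smooth, `tsupport φ ⊆ closedBall x δ ⊆ Ω`, compact; and `fderiv φ t v = - fderiv g (x - t) v`,
so `dbar j φ t = - (dbar j g) (x - t)`. So the integral is `- ∫ H t * dbar j φ t = 0` by `hH0`. -/
theorem dbar_conv (Ω : Set (Cn n)) (H : Cn n → ℂ) (hH : Integrable H)
    (hH0 : ∀ φ, IsTest Ω φ → ∀ j, ∫ z, H z * dbar j φ z = 0)
    (g : Cn n → ℂ) (hg : ContDiff ℝ ∞ g) (δ : ℝ) (hgδ : tsupport g ⊆ closedBall 0 δ)
    (hf : ∀ x v : Cn n, fderiv ℝ (fun x => ∫ t, H t * g (x - t)) x v =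
      ∫ t, H t * fderiv ℝ g (x - t) v)
    (x : Cn n) (hx : closedBall x δ ⊆ Ω) (j : Fin n) :
    dbar j (fun x => ∫ t, H t * g (x - t)) x = 0 := by
  have h1 : ContDiff ℝ 1 g := hg.of_le (by exact_mod_cast le_top)
  have hgc : HasCompactSupport g :=
    (isCompact_closedBall (0 : Cn n) δ).of_isClosed_subset (isClosed_tsupport g) hgδ
  have hcd : Continuous (fderiv ℝ g) := h1.continuous_fderiv one_ne_zero
  have hint : ∀ v : Cn n, Integrable fun t => H t * fderiv ℝ g (x - t) v := by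
    intro v
    have hc : HasCompactSupport (fun y => fderiv ℝ g y v) := hgc.fderiv_apply ℝ v
    have hcont : Continuous (fun y => fderiv ℝ g y v) := hcd.clm_apply continuous_const
    exact hc.convolutionExists_right (ContinuousLinearMap.mul ℝ ℂ) hH.locallyIntegrable hcont x
  obtain ⟨φ, hφ⟩ : ∃ φ : Cn n → ℂ, φ = fun t => g (x - t) := ⟨_, rfl⟩
  have hsub : tsupport φ ⊆ closedBall x δ := by
    apply closure_minimal _ isClosed_closedBall
    intro t ht
    have h2 : x - t ∈ tsupport g := by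
      apply subset_tsupport
      rw [hφ] at ht
      exact ht
    have h3 := hgδ h2
    rw [mem_closedBall_zero_iff] at h3
    rw [mem_closedBall, dist_eq_norm, ← norm_neg, neg_sub]
    exact h3
  have hderiv : ∀ t v, fderiv ℝ φ t v = - fderiv ℝ g (x - t) v := by
    intro t v
    have h2 : HasFDerivAt g (fderiv ℝ g (x - t)) (x - t) :=
      (h1.differentiable (by norm_num) (x - t)).hasFDerivAt
    have h3 : HasFDerivAt (fun t : Cn n => x - t) (-(ContinuousLinearMap.id ℝ (Cn n))) t :=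
      (hasFDerivAt_id t).const_sub x
    have h4 := h2.comp t h3
    have h5 : HasFDerivAt φ ((fderiv ℝ g (x - t)).comp (-(ContinuousLinearMap.id ℝ (Cn n)))) t := by
      rw [hφ]
      exact h4
    rw [h5.fderiv]
    simp
  have htest : IsTest Ω φ := by
    refine ⟨?_, ?_, hsub.trans hx⟩
    · rw [hφ]
      exact hg.comp (contDiff_const.sub contDiff_id)
    · exact (isCompact_closedBall x δ).of_isClosed_subset (isClosed_tsupport φ) hsub
  have h0 := hH0 φ htest j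
  have h6 : (∫ z, H z * dbar j φ z) = - dbar j (fun x => ∫ t, H t * g (x - t)) x := by
    unfold dbar
    rw [hf, hf, ← integral_const_mul, ← integral_add (hint _) ((hint _).const_mul _),
      ← integral_div, ← integral_neg]
    congr 1
    funext t
    rw [hderiv, hderiv]
    ring
  rw [h6, neg_eq_zero] at h0
  exact h0

end Pool.Agent.Lib.MP_340d6a_an
end

section

set_option autoImplicit false

namespace Pool.Agent.Lib.MP_340d6a_an

open MeasureTheory Set Metric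
open scoped ContDiff ENNReal ComplexConjugate

variable {m n : ℕ}

private lemma E2_ne20 : (2 : Fin (m + 3)) ≠ 0 :=
  Fin.ne_of_val_ne (by show (2 : ℕ) ≠ 0; norm_num)

private lemma E2_ne21 : (2 : Fin (m + 3)) ≠ 1 :=
  Fin.ne_of_val_ne (by show (2 : ℕ) ≠ 1; norm_num)

private lemma E2_ne10 : (1 : Fin (m + 3)) ≠ 0 :=
  Fin.ne_of_val_ne (by show (1 : ℕ) ≠ 0; norm_num)

private lemma E2_zero (k : ℕ) (l a : ℂ) :
    (EuclideanSpace.single (2 : Fin (m + 3)) a + l • dir k : Cn (m + 3)) 0 = l * Complex.I ^ k := by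
  have h1 : (0 : Fin (m + 3)) ≠ 2 := E2_ne20.symm
  have h2 : (0 : Fin (m + 3)) ≠ 1 := E2_ne10.symm
  simp [dir, h1, h2]

private lemma E2_one (k : ℕ) (l a : ℂ) :
    (EuclideanSpace.single (2 : Fin (m + 3)) a + l • dir k : Cn (m + 3)) 1 = l := by
  have h1 : (1 : Fin (m + 3)) ≠ 2 := E2_ne21.symm
  have h2 : (1 : Fin (m + 3)) ≠ 0 := E2_ne10
  simp [dir, h1, h2]

private lemma E2_two (k : ℕ) (l a : ℂ) :
    (EuclideanSpace.single (2 : Fin (m + 3)) a + l • dir k : Cn (m + 3)) 2 = a := by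
  have h1 : (2 : Fin (m + 3)) ≠ 0 := E2_ne20
  have h2 : (2 : Fin (m + 3)) ≠ 1 := E2_ne21
  simp [dir, h1, h2]

private lemma E2_succ (k : ℕ) (l a : ℂ) (i : Fin m) :
    (EuclideanSpace.single (2 : Fin (m + 3)) a + l • dir k : Cn (m + 3)) i.succ.succ.succ = 0 := by
  have h0 : (i.succ.succ.succ : Fin (m + 3)) ≠ 0 := by
    intro h; have := congrArg Fin.val h; simp at this
  have h1 : (i.succ.succ.succ : Fin (m + 3)) ≠ 1 := by
    intro h; have := congrArg Fin.val h; simp at this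
  have h2 : (i.succ.succ.succ : Fin (m + 3)) ≠ 2 := by
    intro h; have := congrArg Fin.val h
    simp only [Fin.val_succ] at this
    have h3 : ((2 : Fin (m + 3)) : ℕ) = 2 := rfl
    omega
  simp [dir, h0, h1, h2]

/-- The point `p = single 2 (1 - s)`, `s = τ^16`. The four closed discs `p + l • dir k`,
`|l| ≤ R`, `2 R² = τ`, are contained in `Omega m`: on them `z_0^4 - z_1^4 = 0`,
`(|z_0|²+|z_1|²)^16 = (2|l|²)^16 ≤ τ^16 = s`, the last sum is `(1 - s)²`, and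
`s + (1-s)² = 1 - s + s² < 1`. -/
theorem disc_mem (τ : ℝ) (hτ : 0 < τ) (hτ1 : τ ≤ 1 / 2) (k : ℕ) (l : ℂ) (hl : 2 * ‖l‖ ^ 2 ≤ τ) :
    EuclideanSpace.single (2 : Fin (m + 3)) (1 - τ ^ 16 : ℂ) + l • dir k ∈ Omega m := by
  show psi _ < 1
  unfold psi
  rw [E2_zero, E2_one, Fin.sum_univ_succ]
  have h2 : ((0 : Fin (m + 1)).succ.succ : Fin (m + 3)) = 2 := rfl
  rw [h2, E2_two]
  have h3 : ∑ i : Fin m, ‖(EuclideanSpace.single (2 : Fin (m + 3)) (1 - τ ^ 16 : ℂ) + l • dir k :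
      Cn (m + 3)) i.succ.succ.succ‖ ^ 2 = 0 := by
    apply Finset.sum_eq_zero
    intro i _
    rw [E2_succ]
    simp
  rw [h3, mul_pow, ← pow_mul, mul_comm k 4, pow_mul, Complex.I_pow_four, one_pow, mul_one, sub_self,
    norm_zero]
  have h4 : ‖l * Complex.I ^ k‖ = ‖l‖ := by
    rw [norm_mul, norm_pow, Complex.norm_I, one_pow, mul_one]
  rw [h4]
  set s : ℝ := τ ^ 16 with hs
  have hs0 : 0 < s := by positivity
  have hs1 : s < 1 := pow_lt_one₀ hτ.le (by linarith) (by norm_num)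
  have h5 : ‖(1 - (τ : ℂ) ^ 16)‖ = 1 - s := by
    have : (1 - (τ : ℂ) ^ 16) = ((1 - s : ℝ) : ℂ) := by rw [hs]; push_cast; ring
    rw [this, Complex.norm_real, Real.norm_eq_abs, abs_of_pos (by linarith)]
  rw [h5]
  have h6 : (‖l‖ ^ 2 + ‖l‖ ^ 2) ^ 16 ≤ s := by
    rw [hs, ← two_mul]
    exact pow_le_pow_left₀ (by positivity) hl 16
  nlinarith

/-- On the disc: `z_0 = l I^k`, `z_1 = l`, `z_2 - 1 = - s`, so
`usol = I^(3k) l³ conj l e^{-1} / (|l|² + ρ²) = (e^{-1} R²/(R²+ρ²)) I^(3k) l²` for `|l| = R`. -/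
theorem usol_disc (ρ s R : ℝ) (hs : s ≠ 0) (hR : 0 < R) (k : ℕ) (l : ℂ) (hl : ‖l‖ = R) :
    usol ρ s (EuclideanSpace.single (2 : Fin (m + 3)) (1 - s : ℂ) + l • dir k) =
      ((Real.exp (-1) * (R ^ 2 / (R ^ 2 + ρ ^ 2)) : ℝ) : ℂ) * Complex.I ^ (3 * k) * l ^ 2 := by
  unfold usol
  rw [E2_zero, E2_one, E2_two]
  have hsC : (s : ℂ) ≠ 0 := by exact_mod_cast hs
  have h1 : (1 - (s : ℂ) - 1) / s = ((-1 : ℝ) : ℂ) := by
    push_cast
    field_simp
    ring
  have h2 : l * conj l = ((R ^ 2 : ℝ) : ℂ) := by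
    rw [Complex.mul_conj, Complex.normSq_eq_norm_sq, hl]
  rw [h1, h2, ← Complex.ofReal_exp, mul_pow, ← pow_mul, mul_comm k 3]
  have h3 : l ^ 3 * Complex.I ^ (3 * k) * conj l = ((R ^ 2 : ℝ) : ℂ) * Complex.I ^ (3 * k) * l ^ 2 := by
    rw [← h2]; ring
  rw [h3]
  push_cast
  rw [div_eq_mul_inv]
  ring

end Pool.Agent.Lib.MP_340d6a_an
end
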