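import Pool.Agent.Lib.MP_340d6a_an.Mg.G002

section

set_option autoImplicit false

namespace Pool.Agent.Lib.MP_340d6a_an

open MeasureTheory Set Metric
open scoped ContDiff ENNReal ComplexConjugate

variable {m n : ℕ}

private theorem BX_dbar_mul (j : Fin n) {f g : Cn n → ℂ} {z : Cn n} (hf : DifferentiableAt ℝ f z)
    (hg : DifferentiableAt ℝ g z) :
    dbar j (fun z => f z * g z) z = f z * dbar j g z + g z * dbar j f z := by
  unfold dbar
  rw [fderiv_fun_mul hf hg]
  simp only [add_apply, smul_apply, smul_eq_mul]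
  ring

private theorem BX_dbar_const (j : Fin n) (c : ℂ) (z : Cn n) : dbar j (fun _ => c) z = 0 := by
  unfold dbar
  simp

private theorem BX_dbar_add (j : Fin n) {f g : Cn n → ℂ} {z : Cn n} (hf : DifferentiableAt ℝ f z)
    (hg : DifferentiableAt ℝ g z) :
    dbar j (fun z => f z + g z) z = dbar j f z + dbar j g z := by
  unfold dbar
  rw [fderiv_fun_add hf hg]
  simp only [add_apply]
  ring

private theorem BX_dbar_holo (j : Fin n) {f : Cn n → ℂ} {z : Cn n}
    (hf : DifferentiableAt ℂ f z) : dbar j f z = 0 := by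
  have h1 : fderiv ℝ f z = (fderiv ℂ f z).restrictScalars ℝ :=
    (hf.hasFDerivAt.restrictScalars ℝ).fderiv
  unfold dbar
  rw [h1]
  have h2 : (EuclideanSpace.single j Complex.I : Cn n) =
      Complex.I • (EuclideanSpace.single j 1 : Cn n) := by
    ext i
    by_cases hi : i = j
    · subst hi; simp
    · simp [hi]
  rw [h2]
  simp only [ContinuousLinearMap.coe_restrictScalars', map_smul, smul_eq_mul]
  rw [← mul_assoc, Complex.I_mul_I]
  ring

private theorem BX_coord (k : Fin n) : Differentiable ℂ (fun z : Cn n => z k) :=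
  (EuclideanSpace.proj k : Cn n →L[ℂ] ℂ).differentiable

private theorem BX_coordR (k : Fin n) : Differentiable ℝ (fun z : Cn n => z k) :=
  ((EuclideanSpace.proj k : Cn n →L[ℂ] ℂ).restrictScalars ℝ).differentiable

private theorem BX_conjR (k : Fin n) : Differentiable ℝ (fun z : Cn n => conj (z k)) :=
  (Complex.conjCLE.differentiable).comp (BX_coordR k)

private theorem BX_dbar_conj (j k : Fin n) (z : Cn n) :
    dbar j (fun z : Cn n => conj (z k)) z = if j = k then 1 else 0 := by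
  have h1 : fderiv ℝ (fun z : Cn n => conj (z k)) z =
      (Complex.conjCLE : ℂ →L[ℝ] ℂ).comp
        ((EuclideanSpace.proj k : Cn n →L[ℂ] ℂ).restrictScalars ℝ) := by
    refine HasFDerivAt.fderiv ?_
    exact ((Complex.conjCLE : ℂ →L[ℝ] ℂ).hasFDerivAt (x := z k)).comp z
      (((EuclideanSpace.proj k : Cn n →L[ℂ] ℂ).restrictScalars ℝ).hasFDerivAt)
  unfold dbar
  rw [h1]
  by_cases hjk : j = k
  · subst hjk
    simp
  · have hkj : k ≠ j := fun h => hjk h.symm
    simp [hjk, hkj]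

private theorem BX_den (ρ : ℝ) (hρ : 0 < ρ) (z : ℂ) : z * conj z + (ρ : ℂ) ^ 2 ≠ 0 := by
  intro h
  have h1 := congrArg Complex.re h
  rw [Complex.mul_conj] at h1
  have h2 : ((Complex.normSq z : ℂ) + (ρ : ℂ) ^ 2).re = Complex.normSq z + ρ ^ 2 := by
    rw [Complex.add_re, Complex.ofReal_re]
    norm_cast
  rw [h2, Complex.zero_re] at h1
  have h3 := Complex.normSq_nonneg z
  have h4 : 0 < ρ ^ 2 := by positivity
  linarith

private theorem BX_denR (ρ : ℝ) :
    Differentiable ℝ (fun z : Cn (m + 3) => z 1 * conj (z 1) + (ρ : ℂ) ^ 2) :=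
  ((BX_coordR 1).mul (BX_conjR 1)).add_const _

private theorem BX_invR (ρ : ℝ) (hρ : 0 < ρ) :
    Differentiable ℝ (fun z : Cn (m + 3) => (z 1 * conj (z 1) + (ρ : ℂ) ^ 2)⁻¹) :=
  fun z => (BX_denR ρ z).inv (BX_den ρ hρ (z 1))

private theorem BX_dbar_den (ρ : ℝ) (j : Fin (m + 3)) (z : Cn (m + 3)) :
    dbar j (fun z : Cn (m + 3) => z 1 * conj (z 1) + (ρ : ℂ) ^ 2) z =
      if j = 1 then z 1 else 0 := by
  rw [BX_dbar_add j (f := fun z : Cn (m + 3) => z 1 * conj (z 1)) (g := fun _ => (ρ : ℂ) ^ 2)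
    (((BX_coordR 1).mul (BX_conjR 1)) z) (differentiableAt_const _), BX_dbar_const, add_zero,
    BX_dbar_mul j (BX_coordR 1 z) (BX_conjR 1 z), BX_dbar_conj, BX_dbar_holo j (BX_coord 1 z)]
  by_cases hj : j = 1
  · simp [hj]
  · simp [hj]

private theorem BX_dbar_inv (ρ : ℝ) (hρ : 0 < ρ) (j : Fin (m + 3)) (z : Cn (m + 3)) :
    dbar j (fun z : Cn (m + 3) => (z 1 * conj (z 1) + (ρ : ℂ) ^ 2)⁻¹) z =
      -((z 1 * conj (z 1) + (ρ : ℂ) ^ 2)⁻¹) ^ 2 * (if j = 1 then z 1 else 0) := by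
  have h1 : (fun z : Cn (m + 3) => (z 1 * conj (z 1) + (ρ : ℂ) ^ 2) *
      (z 1 * conj (z 1) + (ρ : ℂ) ^ 2)⁻¹) = fun _ => 1 := by
    funext z
    exact mul_inv_cancel₀ (BX_den ρ hρ (z 1))
  have h2 := BX_dbar_mul j (BX_denR (m := m) ρ z) (BX_invR (m := m) ρ hρ z)
  rw [h1, BX_dbar_const, BX_dbar_den] at h2
  have h3 := BX_den ρ hρ (z 1)
  obtain ⟨E, hE⟩ : ∃ E, E = (z 1 * conj (z 1) + (ρ : ℂ) ^ 2)⁻¹ := ⟨_, rfl⟩
  obtain ⟨D, hD⟩ : ∃ D, D = (z 1 * conj (z 1) + (ρ : ℂ) ^ 2) := ⟨_, rfl⟩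
  rw [← hE] at h2 ⊢
  rw [← hD] at h2 h3 hE
  have h4 : E * D = 1 := by rw [hE]; exact inv_mul_cancel₀ h3
  obtain ⟨X, hX⟩ : ∃ X, X = dbar j (fun z : Cn (m + 3) => (z 1 * conj (z 1) + (ρ : ℂ) ^ 2)⁻¹) z :=
    ⟨_, rfl⟩
  rw [← hX] at h2 ⊢
  have h5 : E * (D * X + E * (if j = 1 then z 1 else 0)) = 0 := by rw [← h2, mul_zero]
  have h6 : E * (D * X + E * (if j = 1 then z 1 else 0)) =
      (E * D) * X + E ^ 2 * (if j = 1 then z 1 else 0) := by ring
  rw [h6, h4, one_mul] at h5
  rw [neg_mul]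
  exact eq_neg_of_add_eq_zero_left h5

private theorem BX_exp (s : ℝ) :
    Differentiable ℂ (fun z : Cn (m + 3) => Complex.exp ((z 2 - 1) / (s : ℂ))) := by
  have h : Differentiable ℂ (fun z : Cn (m + 3) => (z 2 - 1) * (s : ℂ)⁻¹) :=
    ((BX_coord 2).sub_const _).mul_const _
  simp only [div_eq_mul_inv]
  exact h.cexp

/-- `fcoef` is holomorphic in all variables except `z_1`: for `k ≠ 1` the line
`t ↦ z + t • single k 1` and `t ↦ z + t • single k I` do not change `z_1`; or use product rules as in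
`dbar_usol`: `dbar k` of the factor `((z_1 conj z_1 + ρ²)⁻¹)²` is `0` for `k ≠ 1`. -/
theorem dbar_fcoef (ρ s : ℝ) (hρ : 0 < ρ) (k : Fin (m + 3)) (hk : k ≠ 1) (z : Cn (m + 3)) :
    dbar k (fcoef (m := m) ρ s) z = 0 := by
  have hA : Differentiable ℂ (fun z : Cn (m + 3) =>
      (ρ : ℂ) ^ 2 * z 0 ^ 3 * Complex.exp ((z 2 - 1) / (s : ℂ))) :=
    (((differentiable_const _).mul ((BX_coord 0).pow 3))).mul (BX_exp s)
  have hAR : Differentiable ℝ (fun z : Cn (m + 3) =>
      (ρ : ℂ) ^ 2 * z 0 ^ 3 * Complex.exp ((z 2 - 1) / (s : ℂ))) :=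
    fun z => (hA z).restrictScalars ℝ
  have hE := BX_invR (m := m) ρ hρ
  have hE2 : Differentiable ℝ (fun z : Cn (m + 3) => (z 1 * conj (z 1) + (ρ : ℂ) ^ 2)⁻¹ *
      (z 1 * conj (z 1) + (ρ : ℂ) ^ 2)⁻¹) := hE.mul hE
  have e1 : fcoef (m := m) ρ s = fun z : Cn (m + 3) =>
      ((ρ : ℂ) ^ 2 * z 0 ^ 3 * Complex.exp ((z 2 - 1) / (s : ℂ))) *
        ((z 1 * conj (z 1) + (ρ : ℂ) ^ 2)⁻¹ * (z 1 * conj (z 1) + (ρ : ℂ) ^ 2)⁻¹) := by
    funext z
    unfold fcoef
    rw [sq ((z 1 * conj (z 1) + (ρ : ℂ) ^ 2)⁻¹)]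
  rw [e1, BX_dbar_mul k (hAR z) (hE2 z), BX_dbar_mul k (hE z) (hE z), BX_dbar_inv ρ hρ,
    BX_dbar_holo k (hA z), if_neg hk]
  ring

end Pool.Agent.Lib.MP_340d6a_an
end

section

set_option autoImplicit false

namespace Pool.Agent.Lib.MP_340d6a_an

open MeasureTheory Set Metric
open scoped ContDiff ENNReal ComplexConjugate

variable {m n : ℕ}

private theorem C5_single {n : ℕ} (h : Cn n → ℂ) (x : Cn n) (j : Fin n) (hx : dbar j h x = 0) (c : ℂ) :
    fderiv ℝ h x (EuclideanSpace.single j c) = c * fderiv ℝ h x (EuclideanSpace.single j 1) := by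
  have h1 : fderiv ℝ h x (EuclideanSpace.single j Complex.I) =
      Complex.I * fderiv ℝ h x (EuclideanSpace.single j 1) := by
    unfold dbar at hx
    have h2 : fderiv ℝ h x (EuclideanSpace.single j 1) +
        Complex.I * fderiv ℝ h x (EuclideanSpace.single j Complex.I) = 0 := by
      rcases div_eq_zero_iff.1 hx with h3 | h3
      · exact h3
      · exact absurd h3 (by norm_num)
    have h4 : Complex.I * (fderiv ℝ h x (EuclideanSpace.single j 1) +
        Complex.I * fderiv ℝ h x (EuclideanSpace.single j Complex.I)) = 0 := by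
      rw [h2, mul_zero]
    rw [mul_add, ← mul_assoc, Complex.I_mul_I] at h4
    linear_combination -h4
  have h5 : (EuclideanSpace.single j c : Cn n) =
      c.re • EuclideanSpace.single j (1 : ℂ) + c.im • EuclideanSpace.single j Complex.I := by
    ext i
    by_cases hij : i = j
    · subst hij
      simp
    · simp [hij]
  rw [h5, map_add, map_smul, map_smul, h1, Complex.real_smul, Complex.real_smul]
  conv_rhs => rw [← Complex.re_add_im c]
  ring

private theorem C5_sum {n : ℕ} (v : Cn n) : v = ∑ j, EuclideanSpace.single j (v j) := by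
  ext i
  simp

/-- `dbar j h x = 0` says `L (single j I) = I * L (single j 1)` for `L = fderiv ℝ h x`. Hence
`L (single j (a * b)) = a * L (single j b)` for complex `a, b` (write `c = c.re • 1 + c.im • I`, real
linearity), and `ζ • v = ∑ j, single j (ζ * v j)`, `v = ∑ j, single j (v j)`. -/
theorem fderiv_smul_of_dbar (h : Cn n → ℂ) (x : Cn n) (hx : ∀ j, dbar j h x = 0) (ζ : ℂ)
    (v : Cn n) : fderiv ℝ h x (ζ • v) = ζ * fderiv ℝ h x v := by
  have key : ∀ w : Cn n, fderiv ℝ h x w =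
      ∑ j, w j * fderiv ℝ h x (EuclideanSpace.single j 1) := by
    intro w
    conv_lhs => rw [C5_sum w]
    rw [map_sum]
    exact Finset.sum_congr rfl (fun j _ => C5_single h x j (hx j) (w j))
  rw [key (ζ • v), key v, Finset.mul_sum]
  refine Finset.sum_congr rfl (fun j _ => ?_)
  rw [PiLp.smul_apply, smul_eq_mul, mul_assoc]

end Pool.Agent.Lib.MP_340d6a_an
end

section

set_option autoImplicit false

namespace Pool.Agent.Lib.MP_340d6a_an

open MeasureTheory Set Metric
open scoped ContDiff ENNReal ComplexConjugate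

variable {m n : ℕ}

private theorem contDiff_fd (h : Cn n → ℂ) (hh : ContDiff ℝ ∞ h) : ContDiff ℝ 1 (fderiv ℝ h) := by
  have h2 : ContDiff ℝ 2 h := contDiff_infty.1 hh 2
  exact h2.fderiv_right (le_of_eq one_add_one_eq_two)

private theorem hasDerivAt_line (f : Cn n → ℂ) (p v : Cn n) (l : ℂ)
    (hf : DifferentiableAt ℝ f (p + l • v))
    (hlin : ∀ ζ : ℂ, fderiv ℝ f (p + l • v) (ζ • v) = ζ * fderiv ℝ f (p + l • v) v) :
    HasDerivAt (fun l : ℂ => f (p + l • v)) (fderiv ℝ f (p + l • v) v) l := by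
  have h1 : HasFDerivAt (fun l : ℂ => p + l • v)
      ((ContinuousLinearMap.smulRight (1 : ℂ →L[ℂ] ℂ) v).restrictScalars ℝ) l := by
    have h2 : HasFDerivAt (fun l : ℂ => p + l • v)
        (ContinuousLinearMap.smulRight (1 : ℂ →L[ℂ] ℂ) v) l := by
      have h3 := ((hasFDerivAt_id (𝕜 := ℂ) l).smul_const v).const_add p
      exact h3
    exact h2.restrictScalars ℝ
  have h2 := hf.hasFDerivAt.comp l h1
  rw [hasDerivAt_iff_hasFDerivAt]
  refine hasFDerivAt_of_restrictScalars ℝ h2 ?_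
  ext μ
  simp [hlin]

private theorem B_smul (h : Cn n → ℂ) (hh : ContDiff ℝ ∞ h) (p : Cn n)
    (W : Set (Cn n)) (hW : IsOpen W) (hp : p ∈ W)
    (hlin0 : ∀ x ∈ W, ∀ (ζ : ℂ) (v : Cn n), fderiv ℝ h x (ζ • v) = ζ * fderiv ℝ h x v)
    (ζ : ℂ) (w v : Cn n) :
    fderiv ℝ (fun x => fderiv ℝ h x (ζ • w)) p v = ζ * fderiv ℝ (fun x => fderiv ℝ h x w) p v := by
  have h1 : (fun x => fderiv ℝ h x (ζ • w)) =ᶠ[nhds p] fun x => ζ * fderiv ℝ h x w := by
    filter_upwards [hW.mem_nhds hp] with x hx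
    exact hlin0 x hx ζ w
  have hd : DifferentiableAt ℝ (fun x => fderiv ℝ h x w) p := by
    have : ContDiff ℝ 1 (fun x => fderiv ℝ h x w) := by
      have h2 : ContDiff ℝ 1 (fderiv ℝ h) := contDiff_fd h hh
      exact h2.clm_apply contDiff_const
    exact (this.differentiable (by simp)).differentiableAt
  rw [h1.fderiv_eq, fderiv_const_mul hd]
  rfl

private theorem B_add (h : Cn n → ℂ) (hh : ContDiff ℝ ∞ h) (p : Cn n) (w w' v : Cn n) :
    fderiv ℝ (fun x => fderiv ℝ h x (w + w')) p v =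
      fderiv ℝ (fun x => fderiv ℝ h x w) p v + fderiv ℝ (fun x => fderiv ℝ h x w') p v := by
  have hd : ∀ w, DifferentiableAt ℝ (fun x => fderiv ℝ h x w) p := by
    intro w
    have : ContDiff ℝ 1 (fun x => fderiv ℝ h x w) := by
      have h2 : ContDiff ℝ 1 (fderiv ℝ h) := contDiff_fd h hh
      exact h2.clm_apply contDiff_const
    exact (this.differentiable (by simp)).differentiableAt
  have h1 : (fun x => fderiv ℝ h x (w + w')) = fun x => fderiv ℝ h x w + fderiv ℝ h x w' := by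
    funext x; exact map_add _ _ _
  rw [h1, fderiv_fun_add (hd w) (hd w')]
  rfl

/-- Let `G λ = ∑_{k<4} I^k * h (p + λ • dir k)`. For `λ` near the closed disc `|λ| ≤ R`
(`W` is open) `G` is complex differentiable: `G'(λ) = ∑ I^k * fderiv ℝ h (p + λ dir k) (dir k)`, since the
real derivative of `λ ↦ h (p + λ v)` is `μ ↦ D(μ v) = μ D(v)` (`hlin0`). With `e0 = single 0 1`,
`e1 = single 1 1`, `dir k = I^k • e0 + e1`, so near `λ = 0`
`G'(λ) = ∑ I^k (I^k a(p + λ dir k) + b(p + λ dir k))`, `a x = fderiv ℝ h x e0`, `b x = fderiv ℝ h x e1`.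
Differentiating once more at `0` (`hlin1`: the derivatives of `a` and `b` at `p` are complex linear):
`G''(0) = ∑_k I^k (I^(2k) Da(e0) + I^k Da(e1) + I^k Db(e0) + Db(e1)) = 0`, because
`∑_{k<4} I^(jk) = 0` for `j = 1, 2, 3`. -/
theorem second_deriv_zero (h : Cn (m + 3) → ℂ) (hh : ContDiff ℝ ∞ h) (p : Cn (m + 3))
    (W : Set (Cn (m + 3))) (hW : IsOpen W) (hp : p ∈ W)
    (hlin0 : ∀ x ∈ W, ∀ (ζ : ℂ) (v : Cn (m + 3)), fderiv ℝ h x (ζ • v) = ζ * fderiv ℝ h x v)
    (hlin1 : ∀ (w : Cn (m + 3)) (ζ : ℂ) (v : Cn (m + 3)),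
      fderiv ℝ (fun x => fderiv ℝ h x w) p (ζ • v) = ζ * fderiv ℝ (fun x => fderiv ℝ h x w) p v) :
    iteratedDeriv 2 (fun l : ℂ => ∑ k ∈ Finset.range 4, Complex.I ^ k * h (p + l • dir k)) 0 = 0 := by
  have hdiff : Differentiable ℝ h := hh.differentiable (by simp)
  have hd : ∀ w, Differentiable ℝ (fun x => fderiv ℝ h x w) := by
    intro w
    have : ContDiff ℝ 1 (fun x => fderiv ℝ h x w) := by
      have h2 : ContDiff ℝ 1 (fderiv ℝ h) := contDiff_fd h hh
      exact h2.clm_apply contDiff_const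
    exact this.differentiable (by simp)
  rw [iteratedDeriv_succ, iteratedDeriv_one]
  have hev : ∀ k : ℕ, ∀ᶠ l : ℂ in nhds 0, p + l • (dir k : Cn (m + 3)) ∈ W := by
    intro k
    have hc : Continuous (fun l : ℂ => p + l • (dir k : Cn (m + 3))) := by fun_prop
    have h0 : (fun l : ℂ => p + l • (dir k : Cn (m + 3))) 0 ∈ W := by simpa using hp
    exact hc.continuousAt.eventually_mem (hW.mem_nhds h0)
  have hev' : ∀ᶠ l : ℂ in nhds 0, ∀ k ∈ Finset.range 4, p + l • (dir k : Cn (m + 3)) ∈ W :=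
    (Finset.eventually_all _).2 fun k _ => hev k
  have h1 : deriv (fun l : ℂ => ∑ k ∈ Finset.range 4, Complex.I ^ k * h (p + l • dir k)) =ᶠ[nhds 0]
      fun l : ℂ => ∑ k ∈ Finset.range 4, Complex.I ^ k * fderiv ℝ h (p + l • dir k) (dir k) := by
    filter_upwards [hev'] with l hl
    refine HasDerivAt.deriv ?_
    refine HasDerivAt.fun_sum fun k hk => ?_
    exact (hasDerivAt_line h p (dir k) l (hdiff _) fun ζ => hlin0 _ (hl k hk) ζ _).const_mul _
  rw [h1.deriv_eq]
  have h2 : HasDerivAt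
      (fun l : ℂ => ∑ k ∈ Finset.range 4, Complex.I ^ k * fderiv ℝ h (p + l • dir k) (dir k))
      (∑ k ∈ Finset.range 4, Complex.I ^ k * fderiv ℝ (fun x => fderiv ℝ h x (dir k)) p (dir k)) 0 := by
    refine HasDerivAt.fun_sum fun k hk => ?_
    have h3 := hasDerivAt_line (fun x => fderiv ℝ h x (dir k)) p (dir k) 0 (hd _ _) (fun ζ => by
      rw [zero_smul, add_zero]; exact hlin1 _ ζ _)
    rw [zero_smul, add_zero] at h3
    exact h3.const_mul _
  rw [h2.deriv]
  set B : Cn (m + 3) → Cn (m + 3) → ℂ := fun w v => fderiv ℝ (fun x => fderiv ℝ h x w) p v with hB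
  have hB1 : ∀ w w' v, B (w + w') v = B w v + B w' v := fun w w' v => B_add h hh p w w' v
  have hB2 : ∀ (ζ : ℂ) w v, B (ζ • w) v = ζ * B w v := fun ζ w v =>
    B_smul h hh p W hW hp hlin0 ζ w v
  have hB3 : ∀ w v v', B w (v + v') = B w v + B w v' := fun w v v' => map_add _ _ _
  have hB4 : ∀ (ζ : ℂ) w v, B w (ζ • v) = ζ * B w v := fun ζ w v => hlin1 w ζ v
  have hdir : ∀ k : ℕ, (dir k : Cn (m + 3)) = Complex.I ^ k • EuclideanSpace.single 0 1 +
      EuclideanSpace.single 1 1 := by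
    intro k
    unfold dir
    congr 1
    ext i
    by_cases hi : i = 0
    · subst hi; simp
    · simp [hi]
  have h3 : ∀ k : ℕ, B (dir k) (dir k) =
      Complex.I ^ k * (Complex.I ^ k * B (EuclideanSpace.single 0 1) (EuclideanSpace.single 0 1) +
      B (EuclideanSpace.single 0 1) (EuclideanSpace.single 1 1)) +
      (Complex.I ^ k * B (EuclideanSpace.single 1 1) (EuclideanSpace.single 0 1) +
      B (EuclideanSpace.single 1 1) (EuclideanSpace.single 1 1)) := by
    intro k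
    rw [hdir, hB1, hB2, hB3, hB3, hB4, hB4]
  change ∑ k ∈ Finset.range 4, Complex.I ^ k * B (dir k) (dir k) = 0
  simp only [h3]
  generalize B (EuclideanSpace.single 0 1) (EuclideanSpace.single 0 1) = b00
  generalize B (EuclideanSpace.single 0 1) (EuclideanSpace.single 1 1) = b01
  generalize B (EuclideanSpace.single 1 1) (EuclideanSpace.single 0 1) = b10
  generalize B (EuclideanSpace.single 1 1) (EuclideanSpace.single 1 1) = b11
  have hI : Complex.I ^ 2 = -1 := Complex.I_sq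
  have hI3 : Complex.I ^ 3 = -Complex.I := by rw [pow_succ, hI]; ring
  rw [Finset.sum_range_succ, Finset.sum_range_succ, Finset.sum_range_succ, Finset.sum_range_one,
    hI, hI3, pow_one, pow_zero]
  linear_combination (2 * b01 + 2 * b10) * hI

end Pool.Agent.Lib.MP_340d6a_an
end

section

set_option autoImplicit false

namespace Pool.Agent.Lib.MP_340d6a_an

open MeasureTheory Set Metric
open scoped ContDiff ENNReal ComplexConjugate

variable {m n : ℕ}

private lemma D2_hasDerivAt (h : Cn n → ℂ) (hh : ContDiff ℝ ∞ h) (p v : Cn n) (l : ℂ)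
    (hlin : ∀ (ζ : ℂ), fderiv ℝ h (p + l • v) (ζ • v) = ζ * fderiv ℝ h (p + l • v) v) :
    HasDerivAt (fun l : ℂ => h (p + l • v)) (fderiv ℝ h (p + l • v) v) l := by
  have h1 : HasDerivAt (fun l : ℂ => p + l • v) v l := by
    have := ((hasDerivAt_id l).smul_const v).const_add p
    simpa using this
  have h2 : HasFDerivAt (fun l : ℂ => p + l • v)
      ((ContinuousLinearMap.toSpanSingleton ℂ v).restrictScalars ℝ) l :=
    (hasDerivAt_iff_hasFDerivAt.1 h1).restrictScalars ℝ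
  have h3 : HasFDerivAt h (fderiv ℝ h (p + l • v)) (p + l • v) :=
    ((hh.differentiable (by simp)) _).hasFDerivAt
  have h4 := h3.comp l h2
  rw [hasDerivAt_iff_hasFDerivAt]
  refine hasFDerivAt_of_restrictScalars ℝ h4 ?_
  ext ζ
  simp [hlin]

/-- `G l = ∑_{k<4} I^k * h (p + l • dir k)` is complex differentiable near the closed disc
`|l| ≤ R` (real derivative of `l ↦ h (p + l • v)` is complex linear by `hlin0`), and so is
`G1 l = G l - 4 c l²`. For `|l| = R`: `|G1 l| ≤ ∑_k |h (p + l dir k) - c I^(3k) l²| ≤ 4 A`, because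
`∑_{k<4} I^k I^(3k) = 4`. Cauchy's estimate
(`Complex.norm_iteratedDeriv_le_of_forall_mem_sphere_norm_le`): `|G1''(0)| ≤ 2 * 4 A / R²`, and
`G1''(0) = 0 - 8 c` by `h2`. So `8 |c| ≤ 8 A / R²`. -/
theorem quadratic_part (h : Cn (m + 3) → ℂ) (hh : ContDiff ℝ ∞ h) (p : Cn (m + 3))
    (R A : ℝ) (hR : 0 < R) (W : Set (Cn (m + 3))) (hW : IsOpen W)
    (hpW : ∀ k < 4, ∀ l : ℂ, ‖l‖ ≤ R → p + l • dir k ∈ W)
    (hlin0 : ∀ x ∈ W, ∀ (ζ : ℂ) (v : Cn (m + 3)), fderiv ℝ h x (ζ • v) = ζ * fderiv ℝ h x v)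
    (h2 : iteratedDeriv 2
      (fun l : ℂ => ∑ k ∈ Finset.range 4, Complex.I ^ k * h (p + l • dir k)) 0 = 0)
    (c : ℂ) (hc : ∀ k < 4, ∀ l : ℂ, ‖l‖ = R →
      ‖h (p + l • dir k) - c * Complex.I ^ (3 * k) * l ^ 2‖ ≤ A) :
    ‖c‖ * R ^ 2 ≤ A := by
  set G : ℂ → ℂ := fun l => ∑ k ∈ Finset.range 4, Complex.I ^ k * h (p + l • dir k) with hG
  have hdiff : ∀ l : ℂ, ‖l‖ ≤ R → DifferentiableAt ℂ G l := by
    intro l hl
    have hk : ∀ k ∈ Finset.range 4, DifferentiableAt ℂ
        (fun l : ℂ => Complex.I ^ k * h (p + l • dir k)) l := by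
      intro k hk
      have := D2_hasDerivAt h hh p (dir k) l
        (fun ζ => hlin0 _ (hpW k (Finset.mem_range.1 hk) l hl) ζ _)
      exact (this.differentiableAt).const_mul _
    have := DifferentiableAt.fun_sum hk
    exact this
  have hcont : ∀ l : ℂ, ‖l‖ ≤ R → ContinuousAt G l := fun l hl => (hdiff l hl).continuousAt
  set G2 : ℂ → ℂ := fun l => 4 * c * l ^ 2 with hG2
  have hG2d : Differentiable ℂ G2 := by
    rw [hG2]; fun_prop
  have hdc : DiffContOnCl ℂ (G - G2) (ball 0 R) := by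
    apply DifferentiableOn.diffContOnCl
    intro l hl
    rw [closure_ball (0 : ℂ) hR.ne', mem_closedBall, dist_zero_right] at hl
    exact ((hdiff l hl).sub (hG2d l)).differentiableWithinAt
  have hbound : ∀ l ∈ sphere (0 : ℂ) R, ‖(G - G2) l‖ ≤ 4 * A := by
    intro l hl
    rw [mem_sphere, dist_zero_right] at hl
    have h4 : (G - G2) l = ∑ k ∈ Finset.range 4, Complex.I ^ k *
        (h (p + l • dir k) - c * Complex.I ^ (3 * k) * l ^ 2) := by
      have h5 : ∑ k ∈ Finset.range 4, Complex.I ^ k * (c * Complex.I ^ (3 * k) * l ^ 2) = G2 l := by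
        have h6 : ∀ k ∈ Finset.range 4, Complex.I ^ k * (c * Complex.I ^ (3 * k) * l ^ 2) =
            c * l ^ 2 := by
          intro k _
          have h7 : Complex.I ^ k * Complex.I ^ (3 * k) = 1 := by
            rw [← pow_add, show k + 3 * k = 4 * k by ring, pow_mul, Complex.I_pow_four, one_pow]
          calc Complex.I ^ k * (c * Complex.I ^ (3 * k) * l ^ 2)
              = (Complex.I ^ k * Complex.I ^ (3 * k)) * (c * l ^ 2) := by ring
            _ = _ := by rw [h7, one_mul]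
        rw [Finset.sum_congr rfl h6, Finset.sum_const, Finset.card_range, hG2]
        simp only [nsmul_eq_mul]
        push_cast
        ring
      rw [Pi.sub_apply, ← h5, hG]
      simp only
      rw [← Finset.sum_sub_distrib]
      apply Finset.sum_congr rfl
      intro k _
      ring
    rw [h4]
    refine (norm_sum_le _ _).trans ?_
    calc ∑ k ∈ Finset.range 4, ‖Complex.I ^ k *
        (h (p + l • dir k) - c * Complex.I ^ (3 * k) * l ^ 2)‖ ≤ ∑ k ∈ Finset.range 4, A := by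
          apply Finset.sum_le_sum
          intro k hk
          rw [norm_mul, norm_pow, Complex.norm_I, one_pow, one_mul]
          exact hc k (Finset.mem_range.1 hk) l hl
      _ = 4 * A := by simp
  have hC := Complex.norm_iteratedDeriv_le_of_forall_mem_sphere_norm_le 2 hR hdc hbound
  have hGan : ContDiffAt ℂ 2 G 0 := by
    have : DifferentiableOn ℂ G (ball 0 R) := by
      intro l hl
      rw [mem_ball, dist_zero_right] at hl
      exact (hdiff l hl.le).differentiableWithinAt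
    exact (this.analyticAt (ball_mem_nhds 0 hR)).contDiffAt
  have hG2c : ContDiffAt ℂ 2 G2 0 := by
    rw [hG2]; fun_prop
  rw [iteratedDeriv_sub hGan hG2c, h2] at hC
  have hG22 : iteratedDeriv 2 G2 0 = 8 * c := by
    have hd1 : deriv G2 = fun l => 8 * c * l := by
      funext l
      have : HasDerivAt G2 (4 * c * (((2 : ℕ) : ℂ) * l ^ (2 - 1))) l := (hasDerivAt_pow 2 l).const_mul _
      rw [this.deriv]
      push_cast
      ring
    have hd2 : deriv (fun l : ℂ => 8 * c * l) 0 = 8 * c := by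
      have : HasDerivAt (fun l : ℂ => 8 * c * l) (8 * c * 1) 0 := (hasDerivAt_id 0).const_mul _
      rw [this.deriv, mul_one]
    rw [iteratedDeriv_succ, iteratedDeriv_one, hd1, hd2]
  rw [hG22, zero_sub, norm_neg, norm_mul] at hC
  have h8 : ‖(8 : ℂ)‖ = 8 := by simp
  rw [h8] at hC
  have hR2 : 0 < R ^ 2 := by positivity
  rw [le_div_iff₀ hR2] at hC
  have : ((2 : ℕ).factorial : ℝ) = 2 := by simp
  rw [this] at hC
  linarith

end Pool.Agent.Lib.MP_340d6a_an
end

section

set_option autoImplicit false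

namespace Pool.Agent.Lib.MP_340d6a_an

open MeasureTheory Set Metric
open scoped ContDiff ENNReal ComplexConjugate

variable {m n : ℕ}

/-- Regularisation: there are smooth compactly supported `g : Cn n → ℂ` (real nonnegative values,
integral one, support in the closed ball of radius `δ`): the normed `ContDiffBump` at `0` with
`rOut = δ`, composed with `Complex.ofReal`. -/
theorem exists_mollifier (δ : ℝ) (hδ : 0 < δ) : ∃ g : Cn n → ℂ, ContDiff ℝ ∞ g ∧
    HasCompactSupport g ∧ tsupport g ⊆ closedBall 0 δ ∧ ∫ t, g t = 1 ∧ ∫ t, ‖g t‖ = 1 := by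
  let f : ContDiffBump (0 : Cn n) := ⟨δ / 2, δ, by positivity, by linarith⟩
  have hf : ContDiff ℝ ∞ (f.normed volume) := f.contDiff_normed
  refine ⟨fun t => ((f.normed volume t : ℝ) : ℂ), Complex.ofRealCLM.contDiff.comp hf, ?_, ?_, ?_, ?_⟩
  · exact (f.hasCompactSupport_normed (μ := volume)).comp_left Complex.ofReal_zero
  · have h1 := tsupport_comp_subset (g := fun r : ℝ => (r : ℂ)) Complex.ofReal_zero (f.normed volume)
    rw [f.tsupport_normed_eq] at h1
    exact h1
  · rw [integral_complex_ofReal, f.integral_normed, Complex.ofReal_one]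
  · have h2 : (fun t => ‖((f.normed volume t : ℝ) : ℂ)‖) = f.normed volume := by
      funext t
      rw [Complex.norm_real, Real.norm_eq_abs, abs_of_nonneg (f.nonneg_normed t)]
    rw [h2, f.integral_normed]

/-- If `|H - U| ≤ B` on the closed ball of radius `δ` about `x`, `|U - U x| ≤ η` on this ball, then
`|(H * g) x - U x| ≤ B + η`: `(H * g) x - U x = ∫ (H t - U x) g (x - t)`, where `g (x - t) = 0` unless
`t` is in the closed ball. -/
theorem norm_conv_sub_le (H U : Cn n → ℂ) (hH : Integrable H) (g : Cn n → ℂ)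
    (hg : Continuous g) (hgc : HasCompactSupport g) (δ : ℝ) (hgδ : tsupport g ⊆ closedBall 0 δ)
    (hg1 : ∫ t, g t = 1) (hg2 : ∫ t, ‖g t‖ = 1) (x : Cn n) (B η : ℝ)
    (hB : ∀ t ∈ closedBall x δ, ‖H t - U t‖ ≤ B) (hη : ∀ t ∈ closedBall x δ, ‖U t - U x‖ ≤ η) :
    ‖(∫ t, H t * g (x - t)) - U x‖ ≤ B + η := by
  have hgi : Integrable g := hg.integrable_of_hasCompactSupport hgc
  have hgx : Integrable (fun t => g (x - t)) := hgi.comp_sub_left x
  obtain ⟨C, hC⟩ := hg.bounded_above_of_compact_support hgc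
  have hHg : Integrable (fun t => H t * g (x - t)) :=
    hH.mul_bdd (c := C) (hg.comp (continuous_const.sub continuous_id)).aestronglyMeasurable
      (Filter.Eventually.of_forall fun t => hC (x - t))
  have e1 : ∫ t, g (x - t) = 1 := by rw [integral_sub_left_eq_self g volume x, hg1]
  have e2 : ∫ t, ‖g (x - t)‖ = 1 := by
    rw [integral_sub_left_eq_self (fun t => ‖g t‖) volume x, hg2]
  have e3 : (∫ t, H t * g (x - t)) - U x = ∫ t, (H t - U x) * g (x - t) := by
    have e4 : U x = ∫ t, U x * g (x - t) := by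
      rw [integral_const_mul, e1, mul_one]
    conv_lhs => rw [e4]
    rw [← integral_sub hHg (hgx.const_mul (U x))]
    congr 1
    funext t
    ring
  rw [e3]
  have e5 : ∫ t, (B + η) * ‖g (x - t)‖ = B + η := by
    rw [integral_const_mul, e2, mul_one]
  rw [← e5]
  refine norm_integral_le_of_norm_le (hgx.norm.const_mul (B + η)) (Filter.Eventually.of_forall fun t => ?_)
  show ‖(H t - U x) * g (x - t)‖ ≤ (B + η) * ‖g (x - t)‖
  rw [norm_mul]
  by_cases h0 : g (x - t) = 0
  · rw [h0, norm_zero, mul_zero, mul_zero]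
  · have h1 : x - t ∈ closedBall (0 : Cn n) δ := hgδ (subset_tsupport g h0)
    have h2 : t ∈ closedBall x δ := by
      rw [mem_closedBall, dist_comm, dist_eq_norm]
      rw [mem_closedBall, dist_zero_right] at h1
      exact h1
    refine mul_le_mul_of_nonneg_right ?_ (norm_nonneg _)
    calc ‖H t - U x‖ = ‖(H t - U t) + (U t - U x)‖ := by rw [sub_add_sub_cancel]
      _ ≤ ‖H t - U t‖ + ‖U t - U x‖ := norm_add_le _ _
      _ ≤ B + η := add_le_add (hB t h2) (hη t h2)

end Pool.Agent.Lib.MP_340d6a_an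
end
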