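import Pool.Agent.Lib.MP_340d6a_an.Defs

section

set_option autoImplicit false

namespace Pool.Agent.Lib.MP_340d6a_an

open MeasureTheory Set Metric
open scoped ContDiff ENNReal ComplexConjugate

variable {m n : ℕ}

/-- psi is a polynomial expression in the coordinates `z i` (continuous linear maps
`EuclideanSpace.proj i`, or `continuity`/`fun_prop`). -/
theorem continuous_psi : Continuous (psi (m := m)) := by
  unfold psi
  fun_prop

theorem isOpen_Omega : IsOpen (Omega m) :=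
  isOpen_lt continuous_psi continuous_const

/-- `{psi ≤ c}`: all three terms of `psi` are nonnegative, so `|z_i|² ≤ c` for `i ≥ 2` and
`(|z_0|²+|z_1|²)^16 ≤ c ≤ (1+|c|)^16`, so `|z_0|²+|z_1|² ≤ 1 + |c|`; hence every coordinate is
bounded and so is the Euclidean norm. -/
theorem isBounded_of_psi_le (c : ℝ) : Bornology.IsBounded {z : Cn (m + 3) | psi z ≤ c} := by
  rw [isBounded_iff_forall_norm_le]
  refine ⟨Real.sqrt (1 + |c| + |c|), ?_⟩
  intro z hz
  have hz' : psi z ≤ c := hz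
  unfold psi at hz'
  have h1 : 0 ≤ ‖z 0 ^ 4 - z 1 ^ 4‖ ^ 2 := by positivity
  have h2 : 0 ≤ (‖z 0‖ ^ 2 + ‖z 1‖ ^ 2) ^ 16 := by positivity
  have h3 : 0 ≤ ∑ i : Fin (m + 1), ‖z i.succ.succ‖ ^ 2 := Finset.sum_nonneg (fun i _ => by positivity)
  have hc : c ≤ |c| := le_abs_self c
  have hc0 : 0 ≤ |c| := abs_nonneg c
  have h4 : (‖z 0‖ ^ 2 + ‖z 1‖ ^ 2) ^ 16 ≤ (1 + |c|) ^ 16 := by
    have h5 : (1 + |c|) ^ 1 ≤ (1 + |c|) ^ 16 := pow_le_pow_right₀ (by linarith) (by norm_num)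
    linarith
  have h6 : ‖z 0‖ ^ 2 + ‖z 1‖ ^ 2 ≤ 1 + |c| :=
    le_of_pow_le_pow_left₀ (by norm_num) (by linarith) h4
  have h7 : ∑ i : Fin (m + 1), ‖z i.succ.succ‖ ^ 2 ≤ |c| := by linarith
  rw [EuclideanSpace.norm_eq]
  apply Real.sqrt_le_sqrt
  rw [Fin.sum_univ_succ, Fin.sum_univ_succ]
  have h8 : (Fin.succ (0 : Fin (m + 2))) = (1 : Fin (m + 3)) := rfl
  rw [h8]
  linarith

end Pool.Agent.Lib.MP_340d6a_an
end

section

set_option autoImplicit false

namespace Pool.Agent.Lib.MP_340d6a_an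

open MeasureTheory Set Metric
open scoped ContDiff ENNReal ComplexConjugate

variable {m n : ℕ}

/-- `(t • z) i = t * z i`. -/
theorem psi_smul (t : ℝ) (z : Cn (m + 3)) : psi (t • z) =
    t ^ 8 * ‖z 0 ^ 4 - z 1 ^ 4‖ ^ 2 + t ^ 32 * (‖z 0‖ ^ 2 + ‖z 1‖ ^ 2) ^ 16 +
      t ^ 2 * ∑ i : Fin (m + 1), ‖z i.succ.succ‖ ^ 2 := by
  unfold psi
  have h0 : ∀ i : Fin (m + 3), (t • z) i = (t : ℂ) * z i := by
    intro i
    show t • z i = (t : ℂ) * z i
    exact Complex.real_smul
  have h1 : ∀ i : Fin (m + 3), ‖(t • z) i‖ ^ 2 = t ^ 2 * ‖z i‖ ^ 2 := by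
    intro i
    rw [h0, norm_mul, mul_pow, Complex.norm_real, Real.norm_eq_abs, sq_abs]
  have h2 : (t • z) 0 ^ 4 - (t • z) 1 ^ 4 = ((t ^ 4 : ℝ) : ℂ) * (z 0 ^ 4 - z 1 ^ 4) := by
    rw [h0, h0]
    push_cast
    ring
  rw [h2, norm_mul, mul_pow, Complex.norm_real, Real.norm_eq_abs, sq_abs, h1 0, h1 1]
  have h3 : ∑ i : Fin (m + 1), ‖(t • z) i.succ.succ‖ ^ 2 = t ^ 2 * ∑ i : Fin (m + 1), ‖z i.succ.succ‖ ^ 2 := by
    rw [Finset.mul_sum]
    exact Finset.sum_congr rfl (fun i _ => h1 _)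
  rw [h3]
  ring

/-- `Omega m` contains `0` and is star shaped: for `0 ≤ t ≤ 1`, `psi (t • z) ≤ psi z` by `psi_smul`
(`t^8, t^32, t^2 ≤ 1`). Then `StarConvex` implies path connected / connected (or: union of the
segments `[0, z]`, `isPreconnected_of_forall`). -/
theorem isConnected_Omega : IsConnected (Omega m) := by
  have h0 : (0 : Cn (m + 3)) ∈ Omega m := by
    show psi 0 < 1
    unfold psi
    simp
  have hs : StarConvex ℝ (0 : Cn (m + 3)) (Omega m) := by
    rw [starConvex_zero_iff]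
    intro z hz t ht0 ht1
    show psi (t • z) < 1
    have hz' : psi z < 1 := hz
    rw [psi_smul]
    unfold psi at hz'
    have h1 : 0 ≤ ‖z 0 ^ 4 - z 1 ^ 4‖ ^ 2 := by positivity
    have h2 : 0 ≤ (‖z 0‖ ^ 2 + ‖z 1‖ ^ 2) ^ 16 := by positivity
    have h3 : 0 ≤ ∑ i : Fin (m + 1), ‖z i.succ.succ‖ ^ 2 := Finset.sum_nonneg (fun i _ => by positivity)
    have h4 : t ^ 8 * ‖z 0 ^ 4 - z 1 ^ 4‖ ^ 2 ≤ ‖z 0 ^ 4 - z 1 ^ 4‖ ^ 2 :=
      mul_le_of_le_one_left h1 (pow_le_one₀ ht0 ht1)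
    have h5 : t ^ 32 * (‖z 0‖ ^ 2 + ‖z 1‖ ^ 2) ^ 16 ≤ (‖z 0‖ ^ 2 + ‖z 1‖ ^ 2) ^ 16 :=
      mul_le_of_le_one_left h2 (pow_le_one₀ ht0 ht1)
    have h6 : t ^ 2 * ∑ i : Fin (m + 1), ‖z i.succ.succ‖ ^ 2 ≤ ∑ i : Fin (m + 1), ‖z i.succ.succ‖ ^ 2 :=
      mul_le_of_le_one_left h3 (pow_le_one₀ ht0 ht1)
    linarith
  exact (hs.isPathConnected h0).isConnected

end Pool.Agent.Lib.MP_340d6a_an
end

section

set_option autoImplicit false

namespace Pool.Agent.Lib.MP_340d6a_an

open MeasureTheory Set Metric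
open scoped ContDiff ENNReal ComplexConjugate

variable {m n : ℕ}

private theorem A3_coord (i : Fin (m + 3)) (z : Cn (m + 3)) :
    AnalyticAt ℝ (fun z : Cn (m + 3) => z i) z :=
  ((EuclideanSpace.proj (𝕜 := ℂ) i : Cn (m + 3) →L[ℂ] ℂ).restrictScalars ℝ).analyticAt z

private theorem A3_normSq {f : Cn (m + 3) → ℂ} {z : Cn (m + 3)} (hf : AnalyticAt ℝ f z) :
    AnalyticAt ℝ (fun z => ‖f z‖ ^ 2) z := by
  have h1 : AnalyticAt ℝ (fun z => (f z).re) z := (Complex.reCLM.analyticAt (f z)).comp hf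
  have h2 : AnalyticAt ℝ (fun z => (f z).im) z := (Complex.imCLM.analyticAt (f z)).comp hf
  have h3 : (fun z => ‖f z‖ ^ 2) = fun z => (f z).re ^ 2 + (f z).im ^ 2 := by
    funext w
    rw [← Complex.normSq_eq_norm_sq, Complex.normSq_apply]
    ring
  rw [h3]
  exact (h1.pow 2).add (h2.pow 2)

/-- `‖w‖² = (re w)² + (im w)²`, so `psi` is a polynomial in the real-linear functions
`z ↦ (z i).re`, `z ↦ (z i).im` (continuous linear maps are analytic:
`ContinuousLinearMap.analyticAt`; sums, products, powers: `AnalyticAt.add/mul/pow`,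
`Finset.analyticAt_sum`). `w ↦ w^4` for `w = z 0` is analytic over `ℝ` as well; re and im parts by
composing with `Complex.reCLM`, `Complex.imCLM`. -/
theorem analyticOnNhd_psi : AnalyticOnNhd ℝ (psi (m := m)) univ := by
  intro z _
  have h1 : AnalyticAt ℝ (fun z : Cn (m + 3) => ‖z 0 ^ 4 - z 1 ^ 4‖ ^ 2) z :=
    A3_normSq (((A3_coord 0 z).pow 4).sub ((A3_coord 1 z).pow 4))
  have h2 : AnalyticAt ℝ (fun z : Cn (m + 3) => (‖z 0‖ ^ 2 + ‖z 1‖ ^ 2) ^ 16) z :=
    ((A3_normSq (A3_coord 0 z)).add (A3_normSq (A3_coord 1 z))).pow 16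
  have h3 : AnalyticAt ℝ (fun z : Cn (m + 3) => ∑ i : Fin (m + 1), ‖z i.succ.succ‖ ^ 2) z := by
    apply Finset.analyticAt_fun_sum
    intro i _
    exact A3_normSq (A3_coord i.succ.succ z)
  exact (h1.add h2).add h3

end Pool.Agent.Lib.MP_340d6a_an
end

section

set_option autoImplicit false

namespace Pool.Agent.Lib.MP_340d6a_an

open MeasureTheory Set Metric
open scoped ContDiff ENNReal ComplexConjugate

variable {m n : ℕ}

/-- (proved in another file, use as hypothesis). Let `g t = psi (t • z)`. By the formula for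
`psi (t • z)` the derivative of `g` at `t = 1` is
`8 |z_0^4 - z_1^4|² + 32 (|z_0|²+|z_1|²)^16 + 2 ∑ ... ≥ 2 psi z = 2 > 0`; by the chain rule it is
`fderiv ℝ psi z z`. So the derivative is not zero. -/
theorem fderiv_psi_ne_zero (hd : AnalyticOnNhd ℝ (psi (m := m)) univ)
    (hsm : ∀ (t : ℝ) (z : Cn (m + 3)), psi (t • z) =
      t ^ 8 * ‖z 0 ^ 4 - z 1 ^ 4‖ ^ 2 + t ^ 32 * (‖z 0‖ ^ 2 + ‖z 1‖ ^ 2) ^ 16 +
        t ^ 2 * ∑ i : Fin (m + 1), ‖z i.succ.succ‖ ^ 2)
    (z : Cn (m + 3)) (hz : psi z = 1) : fderiv ℝ (psi (m := m)) z ≠ 0 := by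
  intro h0
  have hdz : DifferentiableAt ℝ (psi (m := m)) z := (hd z (mem_univ z)).differentiableAt
  have h1 : HasFDerivAt (psi (m := m)) (0 : Cn (m + 3) →L[ℝ] ℝ) z := by
    rw [← h0]
    exact hdz.hasFDerivAt
  have h2 : HasDerivAt (fun t : ℝ => t • z) z 1 := by
    have h3 := (hasDerivAt_id (1 : ℝ)).smul_const z
    rw [one_smul] at h3
    exact h3
  have h1' : HasFDerivAt (psi (m := m)) (0 : Cn (m + 3) →L[ℝ] ℝ) ((fun t : ℝ => t • z) 1) := by
    show HasFDerivAt (psi (m := m)) (0 : Cn (m + 3) →L[ℝ] ℝ) ((1 : ℝ) • z)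
    rw [one_smul]
    exact h1
  have h4 : HasDerivAt ((psi (m := m)) ∘ fun t : ℝ => t • z) ((0 : Cn (m + 3) →L[ℝ] ℝ) z) 1 :=
    h1'.comp_hasDerivAt 1 h2
  set A : ℝ := ‖z 0 ^ 4 - z 1 ^ 4‖ ^ 2 with hA
  set B : ℝ := (‖z 0‖ ^ 2 + ‖z 1‖ ^ 2) ^ 16 with hB
  set C : ℝ := ∑ i : Fin (m + 1), ‖z i.succ.succ‖ ^ 2 with hC
  have hA0 : 0 ≤ A := by positivity
  have hB0 : 0 ≤ B := by positivity
  have hC0 : 0 ≤ C := Finset.sum_nonneg (fun i _ => by positivity)
  have h5 : ((psi (m := m)) ∘ fun t : ℝ => t • z) = fun t : ℝ => t ^ 8 * A + t ^ 32 * B + t ^ 2 * C := by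
    funext t
    exact hsm t z
  have h6 : HasDerivAt (fun t : ℝ => t ^ 8 * A + t ^ 32 * B + t ^ 2 * C)
      (8 * A + 32 * B + 2 * C) 1 := by
    have h7 := (((hasDerivAt_pow 8 (1 : ℝ)).mul_const A).add ((hasDerivAt_pow 32 (1 : ℝ)).mul_const B)).add
      ((hasDerivAt_pow 2 (1 : ℝ)).mul_const C)
    have h12 : (8 * A + 32 * B + 2 * C : ℝ) = ((8 : ℕ) : ℝ) * 1 ^ (8 - 1) * A + ((32 : ℕ) : ℝ) * 1 ^ (32 - 1) * B +
        ((2 : ℕ) : ℝ) * 1 ^ (2 - 1) * C := by
      rw [one_pow, one_pow, one_pow]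
      push_cast
      ring
    rw [h12]
    exact h7
  rw [h5] at h4
  have h8 := h4.unique h6
  have h9 : A + B + C = 1 := by
    have h10 := hsm 1 z
    rw [one_smul, hz] at h10
    linarith
  have h11 : (0 : Cn (m + 3) →L[ℝ] ℝ) z = 0 := rfl
  rw [h11] at h8
  linarith

/-- take `U = univ`, `r = psi - 1`; on the frontier of `{psi < 1}` (continuous `psi`) `psi = 1`
(`frontier_lt_subset_eq`), and the derivative of `psi - 1` is that of `psi`. -/
theorem realAnalyticBoundary_Omega (hd : AnalyticOnNhd ℝ (psi (m := m)) univ)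
    (hne : ∀ z : Cn (m + 3), psi z = 1 → fderiv ℝ (psi (m := m)) z ≠ 0) :
    RealAnalyticBoundary (Omega m) := by
  have hc : Continuous (psi (m := m)) := by
    rw [← continuousOn_univ]
    exact hd.continuousOn
  intro p _
  refine ⟨univ, isOpen_univ, mem_univ p, fun z => psi z - 1, ?_, ?_, ?_⟩
  · intro z hz
    exact (hd z hz).sub analyticAt_const
  · intro z _
    show psi z < 1 ↔ psi z - 1 < 0
    constructor <;> intro h <;> linarith
  · intro z hz
    have h1 : psi z = 1 := frontier_lt_subset_eq hc continuous_const hz.2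
    have h2 : fderiv ℝ (fun z => psi (m := m) z - 1) z = fderiv ℝ (psi (m := m)) z :=
      fderiv_sub_const (1 : ℝ)
    rw [h2]
    exact hne z h1

end Pool.Agent.Lib.MP_340d6a_an
end

section

set_option autoImplicit false

namespace Pool.Agent.Lib.MP_340d6a_an

open MeasureTheory Set Metric
open scoped ContDiff ENNReal ComplexConjugate

variable {m n : ℕ}

/-- The mean value property: `G 0 = circleAverage G 0 1`. With `a = G 0`:
`|w|² ≥ |a|² + 2 Re (conj a (w - a))` for `w = G ζ`; average over the circle. (All functions are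
continuous, so circle integrable.) Mathlib: `Real.circleAverage`, mean value property of
differentiable functions, e.g. `circleAverage_of_differentiable_on` or
`DiffContOnCl.circleAverage`, or via `Complex.circleIntegral_sub_inv_smul_of_differentiable_on_off_countable`. -/
theorem sq_norm_le_circleAverage (G : ℂ → ℂ) (hG : Differentiable ℂ G) :
    ‖G 0‖ ^ 2 ≤ Real.circleAverage (fun ζ => ‖G ζ‖ ^ 2) 0 1 := by
  have hm : Real.circleAverage G 0 1 = G 0 := (hG.diffContOnCl).circleAverage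
  have hcG : Continuous G := hG.continuous
  have hci : CircleIntegrable G 0 1 := (hcG.continuousOn).circleIntegrable (by norm_num)
  let L : ℂ →L[ℝ] ℝ := Complex.reCLM.comp
    ((ContinuousLinearMap.mul ℝ ℂ) (2 * conj (G 0)))
  have hL : ∀ w, L w = 2 * (conj (G 0) * w).re := by
    intro w
    show (2 * conj (G 0) * w).re = _
    rw [mul_assoc, Complex.mul_re]
    simp
  have h1 : Real.circleAverage (L ∘ G) 0 1 = L (G 0) := by
    rw [ContinuousLinearMap.circleAverage_comp_comm L hci, hm]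
  have h2 : Real.circleAverage (fun ζ => (L ∘ G) ζ - ‖G 0‖ ^ 2) 0 1 = ‖G 0‖ ^ 2 := by
    rw [Real.circleAverage_fun_sub, h1, Real.circleAverage_const, hL]
    · have h3 : (conj (G 0) * G 0).re = ‖G 0‖ ^ 2 := by
        rw [← Complex.normSq_eq_conj_mul_self, Complex.ofReal_re, Complex.normSq_eq_norm_sq]
      rw [h3]
      ring
    · exact ((L.continuous.comp hcG).continuousOn).circleIntegrable (by norm_num)
    · exact (continuous_const.continuousOn).circleIntegrable (by norm_num)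
  rw [← h2]
  have h4 : ‖G 0‖ ^ 2 = ‖G 0‖ ^ 2 := rfl
  apply le_trans (le_of_eq _) (Real.circleAverage_mono (f₁ := fun ζ => (L ∘ G) ζ - ‖G 0‖ ^ 2) _ _ _)
  · rw [h2]
  · exact (((L.continuous.comp hcG).sub continuous_const).continuousOn).circleIntegrable (by norm_num)
  · exact ((hcG.norm.pow 2).continuousOn).circleIntegrable (by norm_num)
  · intro ζ _
    show L (G ζ) - ‖G 0‖ ^ 2 ≤ ‖G ζ‖ ^ 2
    rw [hL]
    have h5 : 0 ≤ Complex.normSq (G ζ - G 0) := Complex.normSq_nonneg _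
    rw [Complex.normSq_sub] at h5
    rw [← Complex.normSq_eq_norm_sq, ← Complex.normSq_eq_norm_sq]
    have h6 : (G ζ * conj (G 0)).re = (conj (G 0) * G ζ).re := by rw [mul_comm]
    rw [h6] at h5
    linarith

end Pool.Agent.Lib.MP_340d6a_an
end

section

set_option autoImplicit false

namespace Pool.Agent.Lib.MP_340d6a_an

open MeasureTheory Set Metric
open scoped ContDiff ENNReal ComplexConjugate

variable {m n : ℕ}

private def A6_P (F : ℂ → ℝ) : Prop := CircleIntegrable F 0 1 ∧ F 0 ≤ Real.circleAverage F 0 1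

private theorem A6_add {F G : ℂ → ℝ} (hF : A6_P F) (hG : A6_P G) : A6_P (fun ζ => F ζ + G ζ) := by
  refine ⟨hF.1.add hG.1, ?_⟩
  rw [Real.circleAverage_fun_add hF.1 hG.1]
  exact add_le_add hF.2 hG.2

private theorem A6_mul {F : ℂ → ℝ} (hF : A6_P F) (c : ℝ) (hc : 0 ≤ c) : A6_P (fun ζ => c * F ζ) := by
  refine ⟨hF.1.const_mul c, ?_⟩
  have h1 : Real.circleAverage (fun ζ => c • F ζ) 0 1 = c • Real.circleAverage F 0 1 :=
    Real.circleAverage_fun_smul
  have h2 : Real.circleAverage (fun ζ => c * F ζ) 0 1 = c * Real.circleAverage F 0 1 := h1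
  rw [h2]
  exact mul_le_mul_of_nonneg_left hF.2 hc

private theorem A6_sum {ι : Type} (s : Finset ι) (F : ι → ℂ → ℝ) (hF : ∀ i ∈ s, A6_P (F i)) :
    A6_P (fun ζ => ∑ i ∈ s, F i ζ) := by
  have h1 : ∀ i ∈ s, CircleIntegrable (F i) 0 1 := fun i hi => (hF i hi).1
  have h2 : CircleIntegrable (fun ζ => ∑ i ∈ s, F i ζ) 0 1 := by
    have h3 := CircleIntegrable.sum s h1
    have h4 : (fun ζ => ∑ i ∈ s, F i ζ) = ∑ i ∈ s, F i := by
      funext ζ
      rw [Finset.sum_apply]
    rw [h4]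
    exact h3
  refine ⟨h2, ?_⟩
  rw [Real.circleAverage_fun_sum h1]
  exact Finset.sum_le_sum (fun i hi => (hF i hi).2)

/-- `psi = |z_0^4 - z_1^4|² + ∑_k (16 choose k) |z_0^k z_1^(16-k)|² + ∑ |z_i|²` (binomial theorem,
`add_pow`), a sum of nonnegative multiples of `|G|²` with `G` a polynomial; for each `G` the function
`ζ ↦ G (z + ζ • v)` is complex differentiable; use `hsq`, additivity of the circle average
(`Real.circleAverage_add`, `_sum`, `_smul`, ...) or intervalIntegral. -/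
theorem psi_le_circleAverage
    (hsq : ∀ G : ℂ → ℂ, Differentiable ℂ G →
      ‖G 0‖ ^ 2 ≤ Real.circleAverage (fun ζ => ‖G ζ‖ ^ 2) 0 1)
    (z v : Cn (m + 3)) :
    psi z ≤ Real.circleAverage (fun ζ => psi (z + ζ • v)) 0 1 := by
  have hP : ∀ G : ℂ → ℂ, Differentiable ℂ G → A6_P (fun ζ => ‖G ζ‖ ^ 2) := by
    intro G hG
    exact ⟨((hG.continuous.norm.pow 2).continuousOn).circleIntegrable (by norm_num), hsq G hG⟩
  have hd : ∀ i : Fin (m + 3), Differentiable ℂ (fun ζ : ℂ => z i + ζ * v i) := by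
    intro i
    fun_prop
  have h1 : (fun ζ : ℂ => psi (z + ζ • v)) = fun ζ : ℂ =>
      (‖(z 0 + ζ * v 0) ^ 4 - (z 1 + ζ * v 1) ^ 4‖ ^ 2 +
      ∑ k ∈ Finset.range (16 + 1), ((16 : ℕ).choose k : ℝ) * ‖(z 0 + ζ * v 0) ^ k * (z 1 + ζ * v 1) ^ (16 - k)‖ ^ 2) +
      ∑ i : Fin (m + 1), ‖z i.succ.succ + ζ * v i.succ.succ‖ ^ 2 := by
    funext ζ
    unfold psi
    have h2 : ∀ i : Fin (m + 3), (z + ζ • v) i = z i + ζ * v i := by
      intro i
      rfl
    simp only [h2]
    congr 1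
    congr 1
    rw [add_pow (‖z 0 + ζ * v 0‖ ^ 2) (‖z 1 + ζ * v 1‖ ^ 2) 16]
    apply Finset.sum_congr rfl
    intro k _
    rw [norm_mul, norm_pow, norm_pow, mul_pow]
    ring
  have h3 : A6_P (fun ζ : ℂ => psi (z + ζ • v)) := by
    rw [h1]
    apply A6_add
    · apply A6_add
      · exact hP _ (((hd 0).pow 4).sub ((hd 1).pow 4))
      · apply A6_sum
        intro k _
        exact A6_mul (hP _ (((hd 0).pow k).mul ((hd 1).pow (16 - k)))) _ (by positivity)
    · apply A6_sum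
      intro i _
      exact hP _ (hd _)
  have h4 := h3.2
  simp only [zero_smul, add_zero] at h4
  exact h4

end Pool.Agent.Lib.MP_340d6a_an
end

section

set_option autoImplicit false

namespace Pool.Agent.Lib.MP_340d6a_an

open MeasureTheory Set Metric
open scoped ContDiff ENNReal ComplexConjugate

variable {m n : ℕ}

/-- Exhaustion function `φ = 1 / (1 - psi)`. Continuous on `{psi < 1}`. Mean value inequality: with
`t0 = psi z < 1` and `t = psi (z + ζ v) < 1` (`|ζ| = 1`): `1/(1-t) ≥ 1/(1-t0) + (t-t0)/(1-t0)²`;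
average over the circle and use `hm`: the average of `t - t0` is `≥ 0`. Integrability: the circle
`z + ζ v` is contained in `Omega m` and the functions are continuous on it. Exhaustion: for `c ≤ 0` the
set is empty; for `c > 0` it is `{psi ≤ 1 - 1/c}` (intersected with nothing else), closed and bounded,
so compact (finite dimensional). -/
theorem pseudoconvex_Omega (hc : Continuous (psi (m := m)))
    (hb : ∀ c : ℝ, Bornology.IsBounded {z : Cn (m + 3) | psi z ≤ c})
    (hm : ∀ z v : Cn (m + 3), psi z ≤ Real.circleAverage (fun ζ => psi (z + ζ • v)) 0 1) :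
    Pseudoconvex (Omega m) := by
  have hlt : ∀ z ∈ Omega m, 0 < 1 - psi z := fun z hz => by
    have : psi z < 1 := hz
    linarith
  refine ⟨fun z => (1 - psi z)⁻¹, ⟨?_, ?_⟩, ?_⟩
  · exact ContinuousOn.inv₀ (continuousOn_const.sub hc.continuousOn) (fun z hz => (hlt z hz).ne')
  · intro z v hzv
    have hz : psi z < 1 := by
      have h0 := hzv 0 (by simp)
      rw [zero_smul, add_zero] at h0
      exact h0
    obtain ⟨t0, ht0⟩ : ∃ t0, t0 = psi z := ⟨_, rfl⟩
    have hpos : 0 < 1 - t0 := by rw [ht0]; linarith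
    have hcont : Continuous (fun ζ : ℂ => psi (z + ζ • v)) :=
      hc.comp (continuous_const.add (continuous_id.smul continuous_const))
    have hI : CircleIntegrable (fun ζ => psi (z + ζ • v)) 0 1 :=
      hcont.continuousOn.circleIntegrable'
    have hI1 : CircleIntegrable (fun ζ => (1 - psi (z + ζ • v))⁻¹) 0 1 := by
      refine ContinuousOn.circleIntegrable' ?_
      refine ContinuousOn.inv₀ (continuousOn_const.sub hcont.continuousOn) (fun ζ hζ => ?_)
      have h1 : ‖ζ‖ ≤ 1 := by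
        rw [mem_sphere_zero_iff_norm] at hζ
        rw [hζ]; simp
      exact (hlt _ (hzv ζ h1)).ne'
    obtain ⟨b, hbdef⟩ : ∃ b, b = (1 - t0)⁻¹ := ⟨_, rfl⟩
    have hI2 : CircleIntegrable (fun ζ => b ^ 2 • psi (z + ζ • v)) 0 1 :=
      (show Continuous (fun ζ : ℂ => b ^ 2 • psi (z + ζ • v)) from
        hcont.const_smul (b ^ 2)).continuousOn.circleIntegrable'
    have hI3 : CircleIntegrable (fun ζ => (b - t0 * b ^ 2) + b ^ 2 • psi (z + ζ • v)) 0 1 :=
      (show Continuous (fun ζ : ℂ => (b - t0 * b ^ 2) + b ^ 2 • psi (z + ζ • v)) from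
        continuous_const.add (hcont.const_smul (b ^ 2))).continuousOn.circleIntegrable'
    have hI4 : CircleIntegrable (fun _ => (b - t0 * b ^ 2)) 0 1 :=
      (continuous_const (y := (b - t0 * b ^ 2))).continuousOn.circleIntegrable'
    have hmono := Real.circleAverage_mono hI3 hI1 (fun ζ hζ => by
      have h1 : ‖ζ‖ ≤ 1 := by
        rw [mem_sphere_zero_iff_norm] at hζ
        rw [hζ]; simp
      have h2 := hlt _ (hzv ζ h1)
      obtain ⟨t, ht⟩ : ∃ t, t = psi (z + ζ • v) := ⟨_, rfl⟩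
      rw [← ht] at h2 ⊢
      simp only [smul_eq_mul]
      rw [hbdef]
      have e : (1 - t)⁻¹ - ((1 - t0)⁻¹ - t0 * (1 - t0)⁻¹ ^ 2 + (1 - t0)⁻¹ ^ 2 * t) =
          (t - t0) ^ 2 * ((1 - t)⁻¹ * (1 - t0)⁻¹ ^ 2) := by
        field_simp
        ring
      have h3 : 0 ≤ (t - t0) ^ 2 * ((1 - t)⁻¹ * (1 - t0)⁻¹ ^ 2) := by positivity
      linarith)
    have heq : Real.circleAverage (fun ζ => (b - t0 * b ^ 2) + b ^ 2 • psi (z + ζ • v)) 0 1 =
        (b - t0 * b ^ 2) + b ^ 2 * Real.circleAverage (fun ζ => psi (z + ζ • v)) 0 1 := by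
      rw [Real.circleAverage_fun_add hI4 hI2, Real.circleAverage_const,
        Real.circleAverage_fun_smul, smul_eq_mul]
    rw [heq] at hmono
    have h5 := hm z v
    rw [← ht0] at h5
    have hb0 : 0 ≤ b ^ 2 := sq_nonneg b
    have h6 := mul_le_mul_of_nonneg_left h5 hb0
    have h7 : (1 - psi z)⁻¹ = b := by rw [hbdef, ht0]
    change (1 - psi z)⁻¹ ≤ _
    rw [h7]
    linarith
  · intro c
    by_cases hc0 : c ≤ 0
    · have : {z ∈ Omega m | (1 - psi z)⁻¹ ≤ c} = ∅ := by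
        ext z
        simp only [mem_ofPred_eq, mem_empty_iff_false, iff_false, not_and, not_le]
        intro hz
        exact lt_of_le_of_lt hc0 (inv_pos.2 (hlt z hz))
      rw [this]
      exact isCompact_empty
    · push Not at hc0
      have : {z ∈ Omega m | (1 - psi z)⁻¹ ≤ c} = {z | psi z ≤ 1 - c⁻¹} := by
        ext z
        simp only [mem_ofPred_eq]
        constructor
        · rintro ⟨hz, h2⟩
          have h3 := inv_le_of_inv_le₀ (hlt z hz) h2
          linarith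
        · intro h2
          have h3 : 0 < c⁻¹ := inv_pos.2 hc0
          have hz : z ∈ Omega m := by
            change psi z < 1
            linarith
          refine ⟨hz, inv_le_of_inv_le₀ hc0 ?_⟩
          linarith
      rw [this]
      exact Metric.isCompact_of_isClosed_isBounded (isClosed_le hc continuous_const) (hb _)

end Pool.Agent.Lib.MP_340d6a_an
end
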